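import Pool.Agent.MP_16d773_co.Defs

/-!
A1: first column hooks of a Young diagram and the core property.
-/

namespace Pool.Agent.MP_16d773_co

namespace Hk

variable (μ : YoungDiagram)

/-- the `j`-th element of `numSet μ` -/
def tt (j : ℕ) : ℕ := j + (μ.colLen 0 - μ.colLen j)

variable {μ}

lemma mem_zero_iff (i : ℕ) : (i, 0) ∈ μ ↔ i < μ.colLen 0 := YoungDiagram.mem_iff_lt_colLen

lemma colLen_le (j : ℕ) : μ.colLen j ≤ μ.colLen 0 := μ.colLen_anti 0 j (Nat.zero_le _)

lemma rowLen_pos {i : ℕ} (h : i < μ.colLen 0) : 0 < μ.rowLen i := by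
  rw [← YoungDiagram.mem_iff_lt_rowLen]
  exact (mem_zero_iff i).2 h

lemma rowLen_zero {i : ℕ} (h : μ.colLen 0 ≤ i) : μ.rowLen i = 0 := by
  by_contra hc
  have h1 : (i, 0) ∈ μ := YoungDiagram.mem_iff_lt_rowLen.2 (Nat.pos_of_ne_zero hc)
  rw [mem_zero_iff] at h1
  omega

lemma hook_zero (i : ℕ) : hook μ i 0 = μ.rowLen i + (μ.colLen 0 - i) - 1 := by
  simp [hook]

lemma lt_row_iff (i j : ℕ) : j < μ.rowLen i ↔ i < μ.colLen j := by
  rw [← YoungDiagram.mem_iff_lt_rowLen, ← YoungDiagram.mem_iff_lt_colLen]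

lemma mem_numSet {t : ℕ} : t ∈ numSet μ ↔ ∀ i < μ.colLen 0, hook μ i 0 ≠ t := by
  unfold numSet
  simp only [Set.mem_ofPred_eq, mem_zero_iff]

lemma not_mem_numSet {t : ℕ} : t ∉ numSet μ ↔ ∃ i < μ.colLen 0, hook μ i 0 = t := by
  rw [mem_numSet]
  push Not
  rfl

lemma tt_mem (j : ℕ) : tt μ j ∈ numSet μ := by
  rw [mem_numSet]
  intro l hl
  rw [hook_zero, tt]
  have h1 := colLen_le (μ := μ) j
  rcases lt_or_ge l (μ.colLen j) with h | h
  · have h2 := (lt_row_iff l j).2 h
    omega
  · have h2 : ¬ j < μ.rowLen l := by rw [lt_row_iff]; omega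
    omega

lemma hook_eq {i j : ℕ} (h : (i, j) ∈ μ) : hook μ i j + tt μ j = hook μ i 0 := by
  have h1 := YoungDiagram.mem_iff_lt_rowLen.1 h
  have h2 := YoungDiagram.mem_iff_lt_colLen.1 h
  have h3 := colLen_le (μ := μ) j
  rw [hook_zero, tt, hook]
  omega

lemma exists_tt {t : ℕ} (ht : t ∈ numSet μ) : ∃ j, tt μ j = t ∧
    ∀ i < μ.colLen 0, t < hook μ i 0 → (i, j) ∈ μ := by
  classical
  rw [mem_numSet] at ht
  have hex : ∃ l, l < μ.colLen 0 → hook μ l 0 < t := ⟨μ.colLen 0, fun h => absurd h (lt_irrefl _)⟩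
  obtain ⟨c, hc, hmin⟩ : ∃ c, (c < μ.colLen 0 → hook μ c 0 < t) ∧
      ∀ l < c, l < μ.colLen 0 ∧ t < hook μ l 0 := by
    refine ⟨Nat.find hex, Nat.find_spec hex, fun l hl => ?_⟩
    have := Nat.find_min hex hl
    push Not at this
    exact ⟨this.1, lt_of_le_of_ne this.2 (fun h => ht l this.1 h.symm)⟩
  have hck : c ≤ μ.colLen 0 := by
    by_contra hcon
    exact absurd (hmin (μ.colLen 0) (by omega)).1 (lt_irrefl _)
  have hkc : μ.colLen 0 - c ≤ t := by
    rcases lt_or_ge c (μ.colLen 0) with h | h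
    · have h1 := hc h
      rw [hook_zero] at h1
      have h2 := rowLen_pos h
      omega
    · omega
  have hcol : μ.colLen (t - (μ.colLen 0 - c)) = c := by
    apply le_antisymm
    · rw [← not_lt, ← lt_row_iff]
      rcases lt_or_ge c (μ.colLen 0) with h | h
      · have h1 := hc h
        rw [hook_zero] at h1
        omega
      · rw [rowLen_zero h]
        omega
    · rcases Nat.eq_zero_or_pos c with h | h
      · omega
      · have h1 := hmin (c - 1) (by omega)
        have h2 : t - (μ.colLen 0 - c) < μ.rowLen (c - 1) := by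
          have h3 := h1.2
          rw [hook_zero] at h3
          omega
        rw [lt_row_iff] at h2
        omega
  refine ⟨t - (μ.colLen 0 - c), ?_, ?_⟩
  · rw [tt, hcol]
    omega
  · intro i hi hti
    rw [YoungDiagram.mem_iff_lt_colLen, hcol]
    by_contra hcon
    push Not at hcon
    have h1 := hc (by omega)
    rw [hook_zero] at h1 hti
    have h2 := μ.rowLen_anti c i hcon
    omega

end Hk

open Hk

theorem A1_core (a : ℕ) (ha : 0 < a) (μ : YoungDiagram) :
    IsCore a μ ↔ ∀ t ∈ numSet μ, t + a ∈ numSet μ := by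
  constructor
  · intro hcore t ht
    by_contra hcon
    obtain ⟨i, hi, hi'⟩ := not_mem_numSet.1 hcon
    obtain ⟨j, hj, hj'⟩ := exists_tt ht
    have hmem := hj' i hi (by omega)
    have h1 := hook_eq hmem
    have h2 : hook μ i j = a := by omega
    exact hcore i j hmem (by rw [h2])
  · rintro h i j hij ⟨c, hc⟩
    have h1 := hook_eq hij
    have h2 : ∀ c : ℕ, tt μ j + a * c ∈ numSet μ := by
      intro c
      induction c with
      | zero => simpa using tt_mem j
      | succ c ih =>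
        have := h _ ih
        rwa [add_assoc, ← Nat.mul_succ] at this
    have h3 := h2 c
    have h4 : tt μ j + a * c = hook μ i 0 := by omega
    rw [h4, mem_numSet] at h3
    have h5 : i < μ.colLen 0 := lt_of_lt_of_le (YoungDiagram.mem_iff_lt_colLen.1 hij)
      (colLen_le j)
    exact h3 i h5 rfl

end Pool.Agent.MP_16d773_co
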