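import Pool.Agent.MP_16d773_co.A1

/-!
A2: `μ ↦ numSet μ` is a bijection onto numerical sets, and the size formula.
-/

namespace Pool.Agent.MP_16d773_co

open Hk

namespace Hk

variable {μ : YoungDiagram}

lemma compl_eq (μ : YoungDiagram) :
    (numSet μ)ᶜ = (fun i => hook μ i 0) '' (Finset.range (μ.colLen 0) : Set ℕ) := by
  ext t
  rw [Set.mem_compl_iff, not_mem_numSet]
  constructor
  · rintro ⟨i, hi, h⟩
    exact ⟨i, by simpa using hi, h⟩
  · rintro ⟨i, hi, h⟩
    exact ⟨i, by simpa using hi, h⟩

lemma tt_strictMono (μ : YoungDiagram) : StrictMono (tt μ) := by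
  intro j j' h
  unfold tt
  have h1 := μ.colLen_anti j j' h.le
  omega

lemma range_tt (μ : YoungDiagram) : Set.range (tt μ) = numSet μ := by
  ext t
  constructor
  · rintro ⟨j, rfl⟩
    exact tt_mem j
  · intro ht
    obtain ⟨j, hj, -⟩ := exists_tt ht
    exact ⟨j, hj⟩

lemma hook_anti {i j : ℕ} (hij : i < j) (hj : j < μ.colLen 0) : hook μ j 0 < hook μ i 0 := by
  rw [hook_zero, hook_zero]
  have h1 := μ.rowLen_anti i j hij.le
  have h2 := rowLen_pos hj
  omega

lemma hook_injOn (μ : YoungDiagram) :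
    Set.InjOn (fun i => hook μ i 0) (Finset.range (μ.colLen 0) : Set ℕ) := by
  intro i hi j hj h
  simp only [Finset.coe_range, Set.mem_Iio] at hi hj
  simp only at h
  rcases lt_trichotomy i j with h1 | h1 | h1
  · have := hook_anti h1 hj
    omega
  · exact h1
  · have := hook_anti h1 hi
    omega

/-- a Young diagram with given row lengths -/
lemma exists_rows (r : ℕ → ℕ) (hr : Antitone r) (k : ℕ) (hk : r k = 0) :
    ∃ μ : YoungDiagram, ∀ i, μ.rowLen i = r i := by
  let ρ : YoungDiagram :=
    ⟨(Finset.range k ×ˢ Finset.range (r 0)).filter (fun c => c.2 < r c.1), by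
      rintro ⟨i, j⟩ ⟨i', j'⟩ hle hmem
      obtain ⟨h1, h2⟩ := hle
      simp only [Finset.coe_filter, Finset.mem_product, Finset.mem_range, Set.mem_ofPred_eq]
        at hmem ⊢ h1 h2
      have h3 := hr h1
      omega⟩
  have hρ : ∀ i j, (i, j) ∈ ρ ↔ j < r i := by
    intro i j
    rw [YoungDiagram.mem_mk]
    simp only [Finset.mem_filter, Finset.mem_product, Finset.mem_range]
    constructor
    · exact fun h => h.2
    · intro h
      have h1 := hr (Nat.zero_le i)
      refine ⟨⟨?_, by omega⟩, h⟩
      by_contra hcon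
      have h2 := hr (not_lt.1 hcon)
      omega
  refine ⟨ρ, fun i => ?_⟩
  have h : ∀ j, j < ρ.rowLen i ↔ j < r i := by
    intro j
    rw [← YoungDiagram.mem_iff_lt_rowLen, hρ]
  have h1 := h (r i)
  have h2 := h (ρ.rowLen i)
  omega

lemma card_eq (μ : YoungDiagram) :
    μ.card = ∑ i ∈ Finset.range (μ.colLen 0), μ.rowLen i := by
  have h := Finset.card_eq_sum_card_fiberwise (s := μ.cells) (t := Finset.range (μ.colLen 0))
    (f := Prod.fst) (by
      rintro ⟨i, j⟩ hc
      have hc' : (i, j) ∈ μ := hc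
      have h1 := YoungDiagram.mem_iff_lt_colLen.1 hc'
      have h2 := colLen_le (μ := μ) j
      simp only [Finset.coe_range, Set.mem_Iio]
      omega)
  rw [YoungDiagram.card, h]
  apply Finset.sum_congr rfl
  intro i _
  rw [YoungDiagram.rowLen_eq_card]
  rfl

end Hk

/-- the complement of `numSet μ` is finite and does not contain `0` -/
theorem A2_finite (μ : YoungDiagram) : (numSet μ)ᶜ.Finite ∧ 0 ∈ numSet μ := by
  constructor
  · rw [compl_eq]
    exact (Finset.finite_toSet _).image _
  · rw [mem_numSet]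
    intro i hi
    rw [hook_zero]
    have := rowLen_pos hi
    omega

/-- `μ ↦ numSet μ` is injective -/
theorem A2_injective : Function.Injective numSet := by
  intro μ ν h
  have h1 : tt μ = tt ν := by
    rw [← StrictMono.range_inj (tt_strictMono μ) (tt_strictMono ν), range_tt, range_tt, h]
  have h2 : ∀ j, μ.colLen 0 - μ.colLen j = ν.colLen 0 - ν.colLen j := by
    intro j
    have := congrFun h1 j
    unfold tt at this
    omega
  have hz : ∀ ρ : YoungDiagram, ∀ j, ρ.rowLen 0 ≤ j → ρ.colLen j = 0 := by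
    intro ρ j hj
    by_contra hcon
    have := (lt_row_iff (μ := ρ) 0 j).2 (Nat.pos_of_ne_zero hcon)
    omega
  have h3 : μ.colLen 0 = ν.colLen 0 := by
    have h4 := h2 (max (μ.rowLen 0) (ν.rowLen 0))
    rw [hz μ _ (le_max_left _ _), hz ν _ (le_max_right _ _)] at h4
    omega
  have h4 : ∀ j, μ.colLen j = ν.colLen j := by
    intro j
    have h5 := h2 j
    have h6 := colLen_le (μ := μ) j
    have h7 := colLen_le (μ := ν) j
    omega
  apply SetLike.ext
  rintro ⟨i, j⟩
  rw [YoungDiagram.mem_iff_lt_colLen, YoungDiagram.mem_iff_lt_colLen, h4]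

/-- every numerical set is `numSet μ` for some `μ` -/
theorem A2_surjective (H : Finset ℕ) (h0 : 0 ∉ H) : ∃ μ : YoungDiagram, numSet μ = (↑H)ᶜ := by
  -- increasing enumeration of `H`
  have hcard : H.card = H.card := rfl
  let e := H.orderEmbOfFin hcard
  let f : ℕ → ℕ := fun i => if h : i < H.card then e ⟨i, h⟩ else 0
  have hf : ∀ i (h : i < H.card), f i = e ⟨i, h⟩ := fun i h => dif_pos h
  have hfmem : ∀ i, i < H.card → f i ∈ H := by
    intro i h
    rw [hf i h]
    exact H.orderEmbOfFin_mem hcard _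
  have hfsurj : ∀ t ∈ H, ∃ i < H.card, f i = t := by
    intro t ht
    have h1 : t ∈ Set.range e := by
      rw [Finset.range_orderEmbOfFin]
      exact ht
    obtain ⟨⟨i, hi⟩, rfl⟩ := h1
    exact ⟨i, hi, hf i hi⟩
  have hfmono : ∀ i, i + 1 < H.card → f i < f (i + 1) := by
    intro i h
    rw [hf i (by omega), hf (i + 1) h]
    apply e.strictMono
    exact Fin.mk_lt_mk.2 (Nat.lt_succ_self i)
  have hfge : ∀ i, i < H.card → i + 1 ≤ f i := by
    intro i
    induction i with
    | zero =>
      intro h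
      rcases Nat.eq_zero_or_pos (f 0) with h1 | h1
      · exact absurd (h1 ▸ hfmem 0 h) h0
      · exact h1
    | succ i ih =>
      intro h
      have := ih (by omega)
      have := hfmono i h
      omega
  let r : ℕ → ℕ := fun i => if i < H.card then f (H.card - 1 - i) - (H.card - 1 - i) else 0
  have hr1 : ∀ i, i < H.card → r i = f (H.card - 1 - i) - (H.card - 1 - i) :=
    fun i h => if_pos h
  have hr0 : ∀ i, H.card ≤ i → r i = 0 := fun i h => if_neg (by omega)
  have hranti : Antitone r := by
    apply antitone_nat_of_succ_le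
    intro i
    rcases lt_or_ge (i + 1) H.card with h | h
    · rw [hr1 i (by omega), hr1 (i + 1) h]
      have e1 : H.card - 1 - i = (H.card - 1 - (i + 1)) + 1 := by omega
      have h1 := hfmono (H.card - 1 - (i + 1)) (by omega)
      rw [e1]
      omega
    · rw [hr0 _ h]
      exact Nat.zero_le _
  obtain ⟨μ, hμ⟩ := exists_rows r hranti H.card (hr0 _ le_rfl)
  have hrpos : ∀ i, i < H.card → 0 < r i := by
    intro i h
    rw [hr1 i h]
    have := hfge (H.card - 1 - i) (by omega)
    omega
  have hk : μ.colLen 0 = H.card := by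
    have h1 : ∀ i, i < μ.colLen 0 ↔ i < H.card := by
      intro i
      rw [← lt_row_iff, hμ]
      constructor
      · intro h
        by_contra hcon
        rw [hr0 i (not_lt.1 hcon)] at h
        exact absurd h (lt_irrefl _)
      · exact hrpos i
    have h2 := h1 (μ.colLen 0)
    have h3 := h1 H.card
    omega
  have hhook : ∀ i, i < H.card → hook μ i 0 = f (H.card - 1 - i) := by
    intro i h
    rw [hook_zero, hμ, hk, hr1 i h]
    have := hfge (H.card - 1 - i) (by omega)
    omega
  refine ⟨μ, ?_⟩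
  ext t
  rw [← not_iff_not, not_mem_numSet, hk]
  simp only [Set.mem_compl_iff, Finset.mem_coe, not_not]
  constructor
  · rintro ⟨i, hi, h⟩
    rw [hhook i hi] at h
    rw [← h]
    exact hfmem _ (by omega)
  · intro ht
    obtain ⟨i, hi, h⟩ := hfsurj t ht
    refine ⟨H.card - 1 - i, by omega, ?_⟩
    rw [hhook _ (by omega)]
    have : H.card - 1 - (H.card - 1 - i) = i := by omega
    rw [this, h]

/-- size formula: `|μ| = ∑_{h ∈ H} h - k (k - 1) / 2` -/
theorem A2_card (μ : YoungDiagram) (H : Finset ℕ) (hH : numSet μ = (↑H)ᶜ) :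
    2 * (μ.card : ℤ) = 2 * ∑ h ∈ H, (h : ℤ) - (H.card : ℤ) * (H.card - 1) := by
  have h1 : H = (Finset.range (μ.colLen 0)).image (fun i => hook μ i 0) := by
    apply Finset.coe_injective
    rw [Finset.coe_image, ← compl_eq, hH, compl_compl]
  have h2 : H.card = μ.colLen 0 := by
    rw [h1, Finset.card_image_of_injOn (hook_injOn μ), Finset.card_range]
  have h3 : ∑ h ∈ H, (h : ℤ) = ∑ i ∈ Finset.range (μ.colLen 0), (hook μ i 0 : ℤ) := by
    conv_lhs => rw [h1]
    rw [Finset.sum_image (hook_injOn μ)]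
  have h4 : ∑ i ∈ Finset.range (μ.colLen 0), (hook μ i 0 : ℤ) =
      ∑ i ∈ Finset.range (μ.colLen 0), ((μ.rowLen i : ℤ) + ((μ.colLen 0 : ℤ) - 1 - i)) := by
    apply Finset.sum_congr rfl
    intro i hi
    rw [Finset.mem_range] at hi
    rw [hook_zero]
    omega
  have h5 : ∀ n : ℕ, 2 * ∑ i ∈ Finset.range n, ((n : ℤ) - 1 - i) = n * (n - 1) := by
    intro n
    have h6 : (2 : ℤ) * ∑ i ∈ Finset.range n, (i : ℤ) = n * (n - 1) := by
      induction n with
      | zero => simp
      | succ n ih =>
        rw [Finset.sum_range_succ, mul_add, ih]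
        push_cast
        ring
    rw [Finset.sum_sub_distrib, mul_sub, h6]
    simp
    ring
  rw [card_eq, h2, h3, h4, Finset.sum_add_distrib, mul_add, h5]
  push_cast
  ring

end Pool.Agent.MP_16d773_co
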