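import Pool.Agent.MP_16d773_co.A1
import Pool.Agent.MP_16d773_co.A2

/-!
Cores and vectors.
-/

namespace Pool.Agent.MP_16d773_co

namespace A3

/-- the value at a residue -/
def kv (m : ℕ) (k : Fin m → ℤ) (t : ℕ) : ℤ :=
  (Fin.cons 0 k : Fin (m + 1) → ℤ) (Fin.ofNat (m + 1) t)

theorem kv_nonneg {m : ℕ} {k : Fin m → ℤ} (hk : ∀ i, 0 ≤ k i) (t : ℕ) : 0 ≤ kv m k t := by
  unfold kv
  refine Fin.cases ?_ (fun i => ?_) (Fin.ofNat (m + 1) t)
  · simp
  · simpa using hk i

theorem kv_succ {m : ℕ} (k : Fin m → ℤ) (i : Fin m) (q : ℕ) :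
    kv m k ((m + 1) * q + (i + 1)) = k i := by
  unfold kv
  have : Fin.ofNat (m + 1) ((m + 1) * q + (i + 1)) = i.succ := by
    apply Fin.ext
    simp only [Fin.ofNat, Fin.val_succ]
    rw [Nat.mul_add_mod]
    exact Nat.mod_eq_of_lt (by omega)
  rw [this, Fin.cons_succ]

theorem kv_zero {m : ℕ} (k : Fin m → ℤ) (q : ℕ) : kv m k ((m + 1) * q) = 0 := by
  unfold kv
  have : Fin.ofNat (m + 1) ((m + 1) * q) = 0 := by
    apply Fin.ext
    simp [Fin.ofNat]
  rw [this, Fin.cons_zero]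

/-- the numerical set of a vector -/
def tset (m : ℕ) (k : Fin m → ℤ) : Set ℕ := {t | kv m k t ≤ ((t / (m + 1) : ℕ) : ℤ)}

/-- the gaps of a vector -/
def gaps (m : ℕ) (k : Fin m → ℤ) : Finset ℕ :=
  (Finset.univ.sigma (fun i : Fin m => Finset.range (k i).toNat)).image
    (fun x => (m + 1) * x.2 + (x.1 + 1))

theorem gaps_inj (m : ℕ) (k : Fin m → ℤ) : Set.InjOn (fun x : (_ : Fin m) × ℕ => (m + 1) * x.2 + ((x.1 : ℕ) + 1))
    (Finset.univ.sigma (fun i : Fin m => Finset.range (k i).toNat)) := by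
  rintro ⟨i, q⟩ - ⟨j, r⟩ - h
  have h' : (m + 1) * q + ((i : ℕ) + 1) = (m + 1) * r + ((j : ℕ) + 1) := h
  have h1 := congrArg (· % (m + 1)) h'
  simp only [Nat.mul_add_mod] at h1
  rw [Nat.mod_eq_of_lt (by omega), Nat.mod_eq_of_lt (by omega)] at h1
  have hij : i = j := Fin.ext (by omega)
  subst hij
  have h2 : (m + 1) * q = (m + 1) * r := by omega
  have := Nat.eq_of_mul_eq_mul_left (by omega) h2
  rw [this]

theorem tset_eq {m : ℕ} (k : Fin m → ℤ) : tset m k = (↑(gaps m k))ᶜ := by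
  ext t
  have hd := Nat.div_add_mod t (m + 1)
  have hlt : t % (m + 1) < m + 1 := Nat.mod_lt _ (by omega)
  simp only [tset, Set.mem_ofPred_eq, Set.mem_compl_iff, Finset.mem_coe, gaps, Finset.mem_image,
    Finset.mem_sigma, Finset.mem_univ, true_and, Finset.mem_range, Sigma.exists, not_exists, not_and]
  rcases Nat.eq_zero_or_pos (t % (m + 1)) with h0 | h0
  · have e : t = (m + 1) * (t / (m + 1)) := by omega
    constructor
    · intro _ i q _ h
      have h1 := congrArg (· % (m + 1)) h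
      simp only [Nat.mul_add_mod] at h1
      rw [Nat.mod_eq_of_lt (by omega), h0] at h1
      omega
    · intro _
      rw [e, kv_zero]
      positivity
  · obtain ⟨i, hi⟩ : ∃ i : Fin m, t % (m + 1) = i + 1 := ⟨⟨t % (m + 1) - 1, by omega⟩, by simp; omega⟩
    have e : t = (m + 1) * (t / (m + 1)) + (i + 1) := by omega
    have hkv : kv m k t = k i := by
      conv_lhs => rw [e]
      exact kv_succ k i _
    rw [hkv]
    constructor
    · intro h j q hq hjq
      have h1 := congrArg (· % (m + 1)) hjq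
      simp only [Nat.mul_add_mod] at h1
      rw [Nat.mod_eq_of_lt (by omega), hi] at h1
      have hij : j = i := Fin.ext (by omega)
      subst hij
      have h2 : (m + 1) * q = (m + 1) * (t / (m + 1)) := by omega
      have := Nat.eq_of_mul_eq_mul_left (by omega) h2
      omega
    · intro h
      by_contra hlt'
      push Not at hlt'
      exact h i (t / (m + 1)) (by omega) e.symm

theorem zero_notMem_gaps {m : ℕ} (k : Fin m → ℤ) : 0 ∉ gaps m k := by
  simp [gaps]

theorem tset_inj {m : ℕ} {k k' : Fin m → ℤ} (hk : ∀ i, 0 ≤ k i) (hk' : ∀ i, 0 ≤ k' i)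
    (h : tset m k = tset m k') : k = k' := by
  have key : ∀ k k' : Fin m → ℤ, (∀ i, 0 ≤ k i) → tset m k = tset m k' → ∀ i, k' i ≤ k i := by
    intro k k' hk h i
    have h1 : (m + 1) * (k i).toNat + (i + 1) ∈ tset m k := by
      simp only [tset, Set.mem_ofPred_eq]
      rw [kv_succ, Nat.mul_add_div (by omega), Nat.div_eq_of_lt (by omega : (i : ℕ) + 1 < m + 1)]
      have := hk i
      omega
    rw [h] at h1
    simp only [tset, Set.mem_ofPred_eq] at h1
    rw [kv_succ, Nat.mul_add_div (by omega), Nat.div_eq_of_lt (by omega : (i : ℕ) + 1 < m + 1)] at h1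
    have := hk i
    omega
  funext i
  exact le_antisymm (key k' k hk' h.symm i) (key k k' hk h i)

theorem kv_add_period {m : ℕ} (k : Fin m → ℤ) (t : ℕ) : kv m k (t + (m + 1)) = kv m k t := by
  unfold kv
  congr 1
  apply Fin.ext
  simp [Fin.ofNat]

theorem tset_period {m : ℕ} (k : Fin m → ℤ) : ∀ t ∈ tset m k, t + (m + 1) ∈ tset m k := by
  intro t ht
  simp only [tset, Set.mem_ofPred_eq] at ht ⊢
  rw [kv_add_period, Nat.add_div_right _ (by omega)]
  omega

theorem exists_tset {m : ℕ} {T : Set ℕ} (hfin : Tᶜ.Finite) (h0 : 0 ∈ T)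
    (hT : ∀ t ∈ T, t + (m + 1) ∈ T) : ∃ k : Fin m → ℤ, (∀ i, 0 ≤ k i) ∧ T = tset m k := by
  classical
  have hT' : ∀ t ∈ T, ∀ q : ℕ, t + (m + 1) * q ∈ T := by
    intro t ht q
    induction q with
    | zero => simpa using ht
    | succ q ih =>
      have := hT _ ih
      rwa [add_assoc, ← Nat.mul_succ] at this
  have hex : ∀ i : Fin m, ∃ q : ℕ, (m + 1) * q + (i + 1) ∈ T := by
    intro i
    by_contra hcon
    push Not at hcon
    have hinj : Function.Injective (fun q : ℕ => (m + 1) * q + ((i : ℕ) + 1)) := by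
      intro a b hab
      have h2 : (m + 1) * a = (m + 1) * b := by
        have : (m + 1) * a + ((i : ℕ) + 1) = (m + 1) * b + ((i : ℕ) + 1) := hab
        omega
      exact Nat.eq_of_mul_eq_mul_left (by omega) h2
    exact Set.infinite_range_of_injective hinj
      (hfin.subset (Set.range_subset_iff.mpr fun q => hcon q))
  refine ⟨fun i => (Nat.find (hex i) : ℕ), fun i => by positivity, ?_⟩
  ext t
  have hd := Nat.div_add_mod t (m + 1)
  have hlt : t % (m + 1) < m + 1 := Nat.mod_lt _ (by omega)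
  simp only [tset, Set.mem_ofPred_eq]
  rcases Nat.eq_zero_or_pos (t % (m + 1)) with h | h
  · have e : t = (m + 1) * (t / (m + 1)) := by omega
    constructor
    · intro _
      conv_lhs => rw [e, kv_zero]
      positivity
    · intro _
      rw [e]
      have := hT' 0 h0 (t / (m + 1))
      rwa [zero_add] at this
  · obtain ⟨i, hi⟩ : ∃ i : Fin m, t % (m + 1) = i + 1 := ⟨⟨t % (m + 1) - 1, by omega⟩, by simp; omega⟩
    have e : t = (m + 1) * (t / (m + 1)) + (i + 1) := by omega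
    conv_rhs => rw [e, kv_succ]
    rw [← e]
    constructor
    · intro ht
      rw [e] at ht
      exact_mod_cast Nat.find_min' (hex i) ht
    · intro hle
      have hle' : Nat.find (hex i) ≤ t / (m + 1) := by exact_mod_cast hle
      have h1 := hT' _ (Nat.find_spec (hex i)) (t / (m + 1) - Nat.find (hex i))
      have h2 : (m + 1) * Nat.find (hex i) + (i + 1) + (m + 1) * (t / (m + 1) - Nat.find (hex i)) =
          t := by
        rw [Nat.mul_sub]
        have : (m + 1) * Nat.find (hex i) ≤ (m + 1) * (t / (m + 1)) := Nat.mul_le_mul_left _ hle'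
        omega
      rwa [h2] at h1

theorem kunz_iff {m : ℕ} (k : Fin m → ℤ) (hk : ∀ i, 0 ≤ k i) : AddClosed (tset m k) ↔ Kunz m k := by
  have hkv : ∀ (i : Fin (m + 1)) (q : ℕ), kv m k ((m + 1) * q + i) =
      (Fin.cons 0 k : Fin (m + 1) → ℤ) i := by
    intro i q
    unfold kv
    congr 1
    apply Fin.ext
    simp only [Fin.ofNat]
    rw [Nat.mul_add_mod]
    exact Nat.mod_eq_of_lt i.2
  have hofNat : ∀ t : ℕ, kv m k t = (Fin.cons 0 k : Fin (m + 1) → ℤ) (Fin.ofNat (m + 1) t) :=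
    fun t => rfl
  have hnn : ∀ i : Fin (m + 1), 0 ≤ (Fin.cons 0 k : Fin (m + 1) → ℤ) i := by
    intro i
    refine Fin.cases ?_ (fun i => ?_) i
    · simp
    · simpa using hk i
  -- addition of residues
  have hsum : ∀ (i j : Fin (m + 1)) (q r : ℕ), kv m k (((m + 1) * q + i) + ((m + 1) * r + j)) =
      (Fin.cons 0 k : Fin (m + 1) → ℤ) (i + j) := by
    intro i j q r
    unfold kv
    congr 1
    apply Fin.ext
    simp only [Fin.ofNat, Fin.val_add]
    have : ((m + 1) * q + (i : ℕ)) + ((m + 1) * r + j) = (m + 1) * (q + r) + (i + j) := by ring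
    rw [this, Nat.mul_add_mod]
  have hdiv : ∀ (i j : Fin (m + 1)) (q r : ℕ), (((m + 1) * q + (i : ℕ)) + ((m + 1) * r + j)) / (m + 1) =
      q + r + (if m + 1 ≤ (i : ℕ) + j then 1 else 0) := by
    intro i j q r
    have : ((m + 1) * q + (i : ℕ)) + ((m + 1) * r + j) = (m + 1) * (q + r) + (i + j) := by ring
    rw [this, Nat.mul_add_div (by omega)]
    congr 1
    have hi := i.2
    have hj := j.2
    split_ifs with h
    · rw [Nat.div_eq_iff (by omega)]
      constructor <;> omega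
    · exact Nat.div_eq_of_lt (by omega)
  constructor
  · intro h i j
    have hi : (m + 1) * ((Fin.cons 0 k : Fin (m + 1) → ℤ) i).toNat + (i : ℕ) ∈ tset m k := by
      simp only [tset, Set.mem_ofPred_eq]
      rw [hkv, Nat.mul_add_div (by omega), Nat.div_eq_of_lt i.2]
      have := hnn i
      omega
    have hj : (m + 1) * ((Fin.cons 0 k : Fin (m + 1) → ℤ) j).toNat + (j : ℕ) ∈ tset m k := by
      simp only [tset, Set.mem_ofPred_eq]
      rw [hkv, Nat.mul_add_div (by omega), Nat.div_eq_of_lt j.2]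
      have := hnn j
      omega
    have hij := h _ hi _ hj
    simp only [tset, Set.mem_ofPred_eq] at hij
    rw [hsum, hdiv] at hij
    have h1 := hnn i
    have h2 := hnn j
    push_cast at hij
    rw [Int.toNat_of_nonneg h1, Int.toNat_of_nonneg h2] at hij
    exact hij
  · intro h x hx y hy
    simp only [tset, Set.mem_ofPred_eq] at hx hy ⊢
    have ex : x = (m + 1) * (x / (m + 1)) + ((Fin.ofNat (m + 1) x : Fin (m + 1)) : ℕ) := by
      simp only [Fin.ofNat]
      exact (Nat.div_add_mod x (m + 1)).symm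
    have ey : y = (m + 1) * (y / (m + 1)) + ((Fin.ofNat (m + 1) y : Fin (m + 1)) : ℕ) := by
      simp only [Fin.ofNat]
      exact (Nat.div_add_mod y (m + 1)).symm
    have h1 := h (Fin.ofNat (m + 1) x) (Fin.ofNat (m + 1) y)
    have h2 := hsum (Fin.ofNat (m + 1) x) (Fin.ofNat (m + 1) y) (x / (m + 1)) (y / (m + 1))
    have h3 := hdiv (Fin.ofNat (m + 1) x) (Fin.ofNat (m + 1) y) (x / (m + 1)) (y / (m + 1))
    rw [← ex, ← ey] at h2 h3
    rw [h2, h3]
    rw [hofNat] at hx hy
    have h4 : ((x / (m + 1) + y / (m + 1) + (if m + 1 ≤ ((Fin.ofNat (m + 1) x : Fin (m + 1)) : ℕ) +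
        ((Fin.ofNat (m + 1) y : Fin (m + 1)) : ℕ) then 1 else 0) : ℕ) : ℤ) =
        ((x / (m + 1) : ℕ) : ℤ) + ((y / (m + 1) : ℕ) : ℤ) +
        (if m + 1 ≤ ((Fin.ofNat (m + 1) x : Fin (m + 1)) : ℕ) +
        ((Fin.ofNat (m + 1) y : Fin (m + 1)) : ℕ) then 1 else 0) := by
      rw [Nat.cast_add, Nat.cast_add]
      congr 1
      split_ifs <;> simp
    rw [h4]
    linarith

theorem sum_range_cast (a b : ℤ) (n : ℕ) :
    2 * ∑ q ∈ Finset.range n, (a * (q : ℤ) + b) = a * (n * (n - 1)) + 2 * n * b := by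
  induction n with
  | zero => simp
  | succ n ih =>
    rw [Finset.sum_range_succ, mul_add, ih]
    push_cast
    ring

theorem dsz_eq {m : ℕ} (k : Fin m → ℤ) (hk : ∀ i, 0 ≤ k i) :
    2 * ∑ h ∈ gaps m k, (h : ℤ) - ((gaps m k).card : ℤ) * ((gaps m k).card - 1) = dsz m k := by
  have hcard : ((gaps m k).card : ℤ) = ∑ i, k i := by
    rw [gaps, Finset.card_image_of_injOn (gaps_inj m k), Finset.card_sigma]
    push_cast
    refine Finset.sum_congr rfl fun i _ => ?_
    rw [Finset.card_range, Int.toNat_of_nonneg (hk i)]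
  have hsum : 2 * ∑ h ∈ gaps m k, (h : ℤ) =
      ∑ i : Fin m, ((m + 1) * (k i * (k i - 1)) + 2 * k i * (i + 1)) := by
    rw [gaps, Finset.sum_image (gaps_inj m k), Finset.sum_sigma, Finset.mul_sum]
    refine Finset.sum_congr rfl fun i _ => ?_
    have := sum_range_cast (m + 1) ((i : ℤ) + 1) (k i).toNat
    rw [Int.toNat_of_nonneg (hk i)] at this
    rw [← this]
    push_cast
    rfl
  rw [hcard, hsum, dsz]
  have e1 : ∑ i : Fin m, (((m : ℤ) + 1) * (k i * (k i - 1)) + 2 * k i * ((i : ℤ) + 1)) =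
      (m + 1) * ∑ i, k i ^ 2 + ∑ i : Fin m, (2 * ((i : ℤ) + 1) - m) * k i - ∑ i, k i := by
    rw [Finset.mul_sum, ← Finset.sum_add_distrib, ← Finset.sum_sub_distrib]
    refine Finset.sum_congr rfl fun i _ => ?_
    ring
  rw [e1]
  ring

end A3

open A3

/-- the general bijection -/
theorem A3_general (m n : ℕ) (Q : Set ℕ → Prop) :
    {μ : YoungDiagram | (IsCore (m + 1) μ ∧ μ.card ≤ n) ∧ Q (numSet μ)}.ncard =
      {k : Fin m → ℤ | ((∀ i, 0 ≤ k i) ∧ dsz m k ≤ 2 * n) ∧ Q (tset m k)}.ncard := by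
  choose! F hF using fun k : Fin m → ℤ => A2_surjective (gaps m k) (zero_notMem_gaps k)
  have hF' : ∀ k : Fin m → ℤ, numSet (F k) = tset m k := fun k => by rw [hF, tset_eq]
  have hcard : ∀ k : Fin m → ℤ, (∀ i, 0 ≤ k i) → 2 * ((F k).card : ℤ) = dsz m k := by
    intro k hk
    rw [A2_card (F k) (gaps m k) (hF k), dsz_eq k hk]
  have hinj : Set.InjOn F {k : Fin m → ℤ | ((∀ i, 0 ≤ k i) ∧ dsz m k ≤ 2 * n) ∧ Q (tset m k)} := by
    intro k hk k' hk' h
    apply tset_inj hk.1.1 hk'.1.1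
    rw [← hF', ← hF', h]
  rw [← hinj.ncard_image]
  congr 1
  ext μ
  constructor
  · rintro ⟨⟨h1, h2⟩, h3⟩
    rw [A1_core (m + 1) (by omega)] at h1
    obtain ⟨hfin, h0⟩ := A2_finite μ
    obtain ⟨k, hk, hT⟩ := exists_tset hfin h0 h1
    have hμ : F k = μ := A2_injective (by rw [hF', hT])
    refine ⟨k, ⟨⟨hk, ?_⟩, ?_⟩, hμ⟩
    · rw [← hcard k hk, hμ]
      exact_mod_cast Nat.mul_le_mul_left 2 h2
    · rw [← hT]
      exact h3
  · rintro ⟨k, ⟨⟨hk, h2⟩, h3⟩, rfl⟩
    refine ⟨⟨?_, ?_⟩, ?_⟩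
    · rw [A1_core (m + 1) (by omega), hF']
      exact tset_period k
    · rw [← hcard k hk] at h2
      have : ((F k).card : ℤ) ≤ n := by linarith
      exact_mod_cast this
    · rw [hF']
      exact h3

theorem A3_core (m n : ℕ) : coreCount (m + 1) n = (coreVec m n).ncard := by
  have h := A3_general m n (fun _ => True)
  simp only [and_true] at h
  exact h

theorem A3_sem (m n : ℕ) : semigroupCoreCount (m + 1) n = (semVec m n).ncard := by
  have h := A3_general m n AddClosed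
  unfold semigroupCoreCount semVec
  rw [h]
  congr 1
  ext k
  constructor
  · rintro ⟨h1, h2⟩
    exact ⟨h1, (kunz_iff k h1.1).mp h2⟩
  · rintro ⟨h1, h2⟩
    exact ⟨h1, (kunz_iff k h1.1).mpr h2⟩

end Pool.Agent.MP_16d773_co
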