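import Pool.Agent.MP_16d773_co.F

namespace Pool.Agent.MP_16d773_co

open MeasureTheory ProbabilityTheory Filter Topology

lemma cons_diff (m : ℕ) (y : Fin (m + 1) → ℝ) (i : Fin (m + 1)) :
    (Fin.cons 0 (fun i : Fin m => y i.succ - y 0) : Fin (m + 1) → ℝ) i = y i - y 0 := by
  refine Fin.cases ?_ (fun j => ?_) i
  · simp
  · simp

lemma up_orth (m : ℕ) : {y : Fin (m + 1) → ℝ | (fun i : Fin m => y i.succ - y 0) ∈ cOrth m} =
    {y | ∀ i, y 0 ≤ y i} := by
  ext y
  simp only [cOrth, Set.mem_ofPred_eq, sub_nonneg]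
  constructor
  · intro h i
    refine Fin.cases le_rfl (fun j => h j) i
  · intro h i
    exact h _

lemma up_kunz (m : ℕ) : {y : Fin (m + 1) → ℝ | (fun i : Fin m => y i.succ - y 0) ∈ cKunz m} =
    {y | ∀ i j, y (i + j) + y 0 ≤ y i + y j} := by
  ext y
  simp only [cKunz, Set.mem_ofPred_eq, cons_diff]
  constructor
  · rintro ⟨_, h⟩ i j
    have := h i j
    linarith
  · intro h
    refine ⟨?_, fun i j => ?_⟩
    · obtain ⟨c, hc⟩ := Finite.exists_min y
      have h1 := h c c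
      have h2 := hc (c + c)
      intro i
      have h3 := hc i.succ
      linarith
    · have := h i j
      linarith

lemma measurable_orth (m : ℕ) : MeasurableSet (cOrth m) := by
  have : cOrth m = ⋂ i, {u : Fin m → ℝ | 0 ≤ u i} := by
    ext u
    simp [cOrth]
  rw [this]
  exact MeasurableSet.iInter (fun i => measurableSet_le measurable_const (by fun_prop))

lemma measurable_kunz (m : ℕ) : MeasurableSet (cKunz m) := by
  have hc : ∀ i : Fin (m + 1), Measurable
      (fun u : Fin m → ℝ => (Fin.cons 0 u : Fin (m + 1) → ℝ) i) := by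
    intro i
    refine Fin.cases ?_ (fun j => ?_) i
    · simp
    · simp only [Fin.cons_succ]
      fun_prop
  have : cKunz m = cOrth m ∩ ⋂ i : Fin (m + 1), ⋂ j : Fin (m + 1), {u : Fin m → ℝ |
      (Fin.cons 0 u : Fin (m + 1) → ℝ) (i + j) ≤
      (Fin.cons 0 u : Fin (m + 1) → ℝ) i + (Fin.cons 0 u : Fin (m + 1) → ℝ) j} := by
    ext u
    simp [cKunz, cOrth]
  rw [this]
  refine (measurable_orth m).inter (MeasurableSet.iInter (fun i => MeasurableSet.iInter (fun j => ?_)))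
  exact measurableSet_le (hc _) ((hc i).add (hc j))

lemma scale_orth (m : ℕ) : ∀ t : ℝ, 0 < t → ∀ u ∈ cOrth m, t • u ∈ cOrth m := by
  intro t ht u hu i
  exact mul_nonneg ht.le (hu i)

lemma cons_smul (m : ℕ) (t : ℝ) (u : Fin m → ℝ) (i : Fin (m + 1)) :
    (Fin.cons 0 (t • u) : Fin (m + 1) → ℝ) i = t * (Fin.cons 0 u : Fin (m + 1) → ℝ) i := by
  refine Fin.cases ?_ (fun j => ?_) i
  · simp
  · simp

lemma scale_kunz (m : ℕ) : ∀ t : ℝ, 0 < t → ∀ u ∈ cKunz m, t • u ∈ cKunz m := by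
  intro t ht u hu
  refine ⟨fun i => mul_nonneg ht.le (hu.1 i), fun i j => ?_⟩
  rw [cons_smul, cons_smul, cons_smul, ← mul_add]
  exact mul_le_mul_of_nonneg_left (hu.2 i j) ht.le

/-- assembly -/
theorem assemble (m : ℕ)
    (A3c : ∀ n, coreCount (m + 1) n = (coreVec m n).ncard)
    (A3s : ∀ n, semigroupCoreCount (m + 1) n = (semVec m n).ncard)
    (Cc : Tendsto (fun n : ℕ => ((coreVec m n).ncard : ℝ) / (√n) ^ m) atTop
      (𝓝 (volume.real (cOrth m ∩ {u | qf m u ≤ 2}))))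
    (Cs : Tendsto (fun n : ℕ => ((semVec m n).ncard : ℝ) / (√n) ^ m) atTop
      (𝓝 (volume.real (cKunz m ∩ {u | qf m u ≤ 2}))))
    (Cp : 0 < volume (cOrth m ∩ {u | qf m u ≤ 2}) ∧
      volume (cOrth m ∩ {u | qf m u ≤ 2}) < ⊤)
    (E : ∃ c : ENNReal, c ≠ 0 ∧ c ≠ ⊤ ∧ ∀ K : Set (Fin m → ℝ), MeasurableSet K →
      (∀ t : ℝ, 0 < t → ∀ u ∈ K, t • u ∈ K) →
      (Measure.pi (fun _ : Fin (m + 1) => gaussianReal 0 1))
        {y | (fun i : Fin m => y i.succ - y 0) ∈ K} = c * volume (K ∩ {u | qf m u ≤ 2})) :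
    Tendsto (fun n : ℕ => (semigroupCoreCount (m + 1) n : ℝ) / (coreCount (m + 1) n)) atTop
      (𝓝 (((m + 1 : ℕ) : ℝ) * (Measure.pi (fun _ : Fin (m + 1) => gaussianReal 0 1)).real
        {y | ∀ i j, y (i + j) + y 0 ≤ y i + y j})) := by
  obtain ⟨c, hc0, hct, hE⟩ := E
  have e1 := hE _ (measurable_orth m) (scale_orth m)
  have e2 := hE _ (measurable_kunz m) (scale_kunz m)
  rw [up_orth, F_sym] at e1
  rw [up_kunz] at e2
  set VP := volume (cOrth m ∩ {u | qf m u ≤ 2}) with hVP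
  set VS := volume (cKunz m ∩ {u | qf m u ≤ 2}) with hVS
  have hVPr : 0 < VP.toReal := ENNReal.toReal_pos Cp.1.ne' Cp.2.ne
  have hcr : 0 < c.toReal := ENNReal.toReal_pos hc0 hct
  have e1' : ((m : ℝ) + 1)⁻¹ = c.toReal * VP.toReal := by
    have := congrArg ENNReal.toReal e1
    rw [ENNReal.toReal_inv, ENNReal.toReal_mul] at this
    rw [← this, ENNReal.toReal_add (by simp) (by simp)]
    simp
  have e2' : (Measure.pi (fun _ : Fin (m + 1) => gaussianReal 0 1)).real
        {y | ∀ i j, y (i + j) + y 0 ≤ y i + y j} = c.toReal * VS.toReal := by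
    rw [Measure.real, e2, ENNReal.toReal_mul]
  have hlim : ((m + 1 : ℕ) : ℝ) * (Measure.pi (fun _ : Fin (m + 1) => gaussianReal 0 1)).real
        {y | ∀ i j, y (i + j) + y 0 ≤ y i + y j} = VS.toReal / VP.toReal := by
    rw [e2']
    have hm : (0 : ℝ) < (m : ℝ) + 1 := by positivity
    have : ((m : ℝ) + 1) * (c.toReal * VP.toReal) = 1 := by
      rw [← e1']
      field_simp
    rw [eq_div_iff hVPr.ne']
    push_cast
    calc ((m : ℝ) + 1) * (c.toReal * VS.toReal) * VP.toReal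
        = (((m : ℝ) + 1) * (c.toReal * VP.toReal)) * VS.toReal := by ring
      _ = VS.toReal := by rw [this, one_mul]
  rw [hlim]
  have hdiv := Cs.div Cc (by exact hVPr.ne')
  refine hdiv.congr' ?_
  filter_upwards [eventually_ge_atTop 1] with n hn
  have hpos : (0 : ℝ) < (√n) ^ m := by
    have : (0 : ℝ) < n := by exact_mod_cast hn
    positivity
  simp only [Pi.div_apply]
  rw [A3c, A3s, div_div_div_cancel_right₀ hpos.ne']

end Pool.Agent.MP_16d773_co
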