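import Pool.Agent.MP_16d773_co.Defs

/-!
Lattice point counting lemma for MP_16d773_co.
-/

namespace Pool.Agent.MP_16d773_co

open MeasureTheory ProbabilityTheory Filter Topology

/-- the set of real vectors whose scaled floor vector lies in `S` -/
def cellSet (m : ℕ) (s : ℝ) (S : Set (Fin m → ℤ)) : Set (Fin m → ℝ) :=
  {u | (fun i => ⌊s * u i⌋) ∈ S}

lemma cellSet_eq (m : ℕ) (s : ℝ) (hs : 0 < s) (S : Set (Fin m → ℤ)) :
    cellSet m s S = ⋃ k ∈ S, Set.pi Set.univ (fun i => Set.Ico ((k i : ℝ) / s) (((k i : ℝ) + 1) / s)) := by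
  ext u
  simp only [cellSet, Set.mem_ofPred_eq, Set.mem_iUnion, Set.mem_pi, Set.mem_univ, true_implies,
    Set.mem_Ico, exists_prop]
  constructor
  · intro h
    refine ⟨_, h, fun i => ?_⟩
    constructor
    · rw [div_le_iff₀ hs, mul_comm]
      exact Int.floor_le _
    · rw [lt_div_iff₀ hs, mul_comm]
      exact Int.lt_floor_add_one _
  · rintro ⟨k, hk, h⟩
    have : (fun i => ⌊s * u i⌋) = k := by
      funext i
      rw [Int.floor_eq_iff]
      obtain ⟨h1, h2⟩ := h i
      rw [div_le_iff₀ hs] at h1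
      rw [lt_div_iff₀ hs] at h2
      constructor <;> linarith [mul_comm s (u i)]
    rw [this]
    exact hk

lemma measurableSet_cellSet (m : ℕ) (s : ℝ) (S : Set (Fin m → ℤ)) :
    MeasurableSet (cellSet m s S) := by
  have hm : Measurable (fun u : Fin m → ℝ => (fun i => ⌊s * u i⌋ : Fin m → ℤ)) := by
    refine measurable_pi_lambda _ (fun i => ?_)
    have h1 : Measurable (fun c : Fin m → ℝ => s * c i) :=
      Measurable.const_mul (f := fun c : Fin m → ℝ => c i) (measurable_pi_apply i) s
    exact Int.measurable_floor.comp h1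
  have hS : MeasurableSet S := by
    exact (Set.to_countable S).measurableSet
  exact hm hS

lemma volume_cellSet (m : ℕ) (s : ℝ) (hs : 0 < s) (S : Set (Fin m → ℤ)) (hS : S.Finite) :
    volume (cellSet m s S) = ENNReal.ofReal ((S.ncard : ℝ) / s ^ m) := by
  rw [cellSet_eq m s hs S]
  rw [measure_biUnion hS.countable]
  · have hcell : ∀ k : Fin m → ℤ, volume (Set.pi Set.univ
        (fun i => Set.Ico ((k i : ℝ) / s) (((k i : ℝ) + 1) / s))) = ENNReal.ofReal (1 / s ^ m) := by
      intro k
      rw [Real.volume_pi_Ico]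
      have : ∀ i : Fin m, (((k i : ℝ) + 1) / s - (k i : ℝ) / s) = 1 / s := by
        intro i; ring
      simp only [this]
      rw [Finset.prod_const, Finset.card_univ, Fintype.card_fin, ← ENNReal.ofReal_pow (by positivity)]
      congr 1
      rw [div_pow, one_pow]
    rw [tsum_congr (fun k : S => hcell k)]
    have := hS.fintype
    rw [tsum_fintype, Finset.sum_const, Finset.card_univ, nsmul_eq_mul, ← Nat.card_eq_fintype_card]
    have h2 : Nat.card S = S.ncard := rfl
    rw [h2, ← ENNReal.ofReal_natCast, ← ENNReal.ofReal_mul (by positivity)]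
    congr 1
    ring
  · intro k _ l _ hkl
    rw [Function.onFun, Set.disjoint_left]
    intro u hu hu'
    apply hkl
    funext i
    have h1 := hu i (Set.mem_univ i)
    have h2 := hu' i (Set.mem_univ i)
    simp only [Set.mem_Ico] at h1 h2
    obtain ⟨a1, a2⟩ := h1
    obtain ⟨b1, b2⟩ := h2
    rw [div_le_iff₀ hs] at a1 b1
    rw [lt_div_iff₀ hs] at a2 b2
    have c1 : (k i : ℝ) < l i + 1 := lt_of_le_of_lt a1 b2
    have c2 : (l i : ℝ) < k i + 1 := lt_of_le_of_lt b1 a2
    have d1 : k i < l i + 1 := by exact_mod_cast c1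
    have d2 : l i < k i + 1 := by exact_mod_cast c2
    omega
  · intro k _
    exact MeasurableSet.univ_pi (fun i => measurableSet_Ico)

/-- General counting lemma. -/
theorem B_count (m : ℕ) (A : ℕ → Set (Fin m → ℤ)) (U : Set (Fin m → ℝ)) (hU : MeasurableSet U)
    (C : ℝ) (hC : ∀ n : ℕ, 1 ≤ n → ∀ k ∈ A n, ∀ i, |(k i : ℝ)| ≤ C * √n)
    (hconv : ∀ᵐ u : Fin m → ℝ, ∀ᶠ n : ℕ in atTop, ((fun i => ⌊√n * u i⌋) ∈ A n ↔ u ∈ U)) :
    Tendsto (fun n : ℕ => ((A n).ncard : ℝ) / (√n) ^ m) atTop (𝓝 (volume.real U)) := by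
  set B : Set (Fin m → ℝ) := Set.pi Set.univ (fun _ => Set.Icc (-(C + 1)) (C + 1)) with hB
  have hBm : MeasurableSet B := MeasurableSet.univ_pi (fun i => measurableSet_Icc)
  have hBf : volume B ≠ ⊤ := by
    rw [hB]
    have : IsCompact (Set.pi Set.univ (fun _ : Fin m => Set.Icc (-(C + 1)) (C + 1))) :=
      isCompact_univ_pi (fun _ => isCompact_Icc)
    exact this.measure_lt_top.ne
  have hfin : ∀ n : ℕ, 1 ≤ n → (A n).Finite := by
    intro n hn
    have h1 : (Set.pi Set.univ (fun _ : Fin m => Set.Icc (-⌈C * √n⌉) ⌈C * √n⌉)).Finite :=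
      Set.Finite.pi' (fun _ => Set.finite_Icc _ _) |>.subset (by
        intro k hk i
        exact hk i (Set.mem_univ i))
    refine h1.subset ?_
    intro k hk i _
    have h2 := hC n hn k hk i
    rw [abs_le] at h2
    have h3 := Int.le_ceil (C * √n)
    constructor
    · have : (-(⌈C * √n⌉ : ℤ) : ℝ) ≤ k i := by linarith [h2.1]
      exact_mod_cast this
    · have : (k i : ℝ) ≤ (⌈C * √n⌉ : ℤ) := by linarith [h2.2]
      exact_mod_cast this
  have hsub : ∀ n : ℕ, 1 ≤ n → cellSet m (√n) (A n) ⊆ B := by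
    intro n hn u hu i _
    have hs : (1 : ℝ) ≤ √n := by
      rw [Real.one_le_sqrt]
      exact_mod_cast hn
    have h2 := hC n hn _ hu i
    rw [abs_le] at h2
    have h3 := Int.floor_le (√n * u i)
    have h4 := Int.lt_floor_add_one (√n * u i)
    constructor
    · by_contra hlt
      push Not at hlt
      have : √n * u i < √n * (-(C + 1)) := by
        apply mul_lt_mul_of_pos_left hlt (by linarith)
      nlinarith [h2.1]
    · by_contra hlt
      push Not at hlt
      have : √n * (C + 1) < √n * u i := by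
        apply mul_lt_mul_of_pos_left hlt (by linarith)
      nlinarith [h2.2]
  have key : Tendsto (fun n : ℕ => volume (cellSet m (√n) (A n))) atTop (𝓝 (volume U)) := by
    refine tendsto_measure_of_ae_tendsto_indicator atTop hU (fun n => measurableSet_cellSet m _ _)
      hBm hBf ?_ ?_
    · filter_upwards [eventually_ge_atTop 1] with n hn
      exact hsub n hn
    · filter_upwards [hconv] with u hu
      exact hu
  have hUf : volume U ≠ ⊤ := by
    have : volume U ≤ volume B := by
      refine le_of_tendsto key ?_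
      filter_upwards [eventually_ge_atTop 1] with n hn
      exact measure_mono (hsub n hn)
    exact (lt_of_le_of_lt this (lt_top_iff_ne_top.mpr hBf)).ne
  have key2 : Tendsto (fun n : ℕ => (volume (cellSet m (√n) (A n))).toReal) atTop
      (𝓝 (volume U).toReal) := (ENNReal.tendsto_toReal hUf).comp key
  refine key2.congr' ?_
  filter_upwards [eventually_ge_atTop 1] with n hn
  have hs : (0 : ℝ) < √n := by
    rw [Real.sqrt_pos]
    exact_mod_cast hn
  rw [volume_cellSet m _ hs _ (hfin n hn), ENNReal.toReal_ofReal (by positivity)]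

end Pool.Agent.MP_16d773_co
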