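import Pool.Agent.MP_16d773_co.B

/-!
Lattice point asymptotics for the two families of vectors of `MP_16d773_co`.
-/

namespace Pool.Agent.MP_16d773_co

open MeasureTheory ProbabilityTheory Filter Topology
open scoped Pointwise

/-! ### the quadratic form -/

theorem C_sq_le (m : ℕ) (u : Fin m → ℝ) : ∑ i, u i ^ 2 ≤ qf m u := by
  unfold qf
  have h := sq_sum_le_card_mul_sum_sq (s := (Finset.univ : Finset (Fin m))) (f := u)
  simp only [Finset.card_univ, Fintype.card_fin] at h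
  linarith

theorem C_qf_cont (m : ℕ) : Continuous (qf m) := by
  unfold qf
  fun_prop

theorem C_qf_smul (m : ℕ) (t : ℝ) (u : Fin m → ℝ) : qf m (t • u) = t ^ 2 * qf m u := by
  unfold qf
  have h1 : ∑ i, (t • u) i ^ 2 = t ^ 2 * ∑ i, u i ^ 2 := by
    rw [Finset.mul_sum]
    exact Finset.sum_congr rfl (fun i _ => by simp [mul_pow])
  have h2 : ∑ i, (t • u) i = t * ∑ i, u i := by
    rw [Finset.mul_sum]
    exact Finset.sum_congr rfl (fun i _ => by simp)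
  rw [h1, h2]
  ring

theorem C_null_qf (m : ℕ) : volume {u : Fin m → ℝ | qf m u = 2} = 0 := by
  by_contra hne
  have hpos : 0 < volume {u : Fin m → ℝ | qf m u = 2} := pos_iff_ne_zero.mpr hne
  have hcount := Measure.countable_meas_level_set_pos (μ := (volume : Measure (Fin m → ℝ)))
    (C_qf_cont m).measurable
  have hsub : Set.Ioi (0 : ℝ) ⊆ {t : ℝ | 0 < volume {u : Fin m → ℝ | qf m u = t}} := by
    intro c hc
    have hc0 : (0 : ℝ) < c := hc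
    set t : ℝ := √(c / 2) with ht
    have ht0 : 0 < t := Real.sqrt_pos.mpr (by positivity)
    have hts : t ^ 2 = c / 2 := Real.sq_sqrt (by positivity)
    have himg : t • {u : Fin m → ℝ | qf m u = 2} ⊆ {u : Fin m → ℝ | qf m u = c} := by
      rintro _ ⟨v, hv, rfl⟩
      have hv' : qf m v = 2 := hv
      show qf m (t • v) = c
      rw [C_qf_smul, hv', hts]
      ring
    have h1 : volume (t • {u : Fin m → ℝ | qf m u = 2}) =
        ENNReal.ofReal |t ^ Module.finrank ℝ (Fin m → ℝ)| *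
          volume {u : Fin m → ℝ | qf m u = 2} := Measure.addHaar_smul _ _ _
    have h2 : 0 < volume (t • {u : Fin m → ℝ | qf m u = 2}) := by
      rw [h1]
      refine ENNReal.mul_pos ?_ hpos.ne'
      have : 0 < |t ^ Module.finrank ℝ (Fin m → ℝ)| := abs_pos.mpr (pow_pos ht0 _).ne'
      exact (ENNReal.ofReal_pos.mpr this).ne'
    exact lt_of_lt_of_le h2 (measure_mono himg)
  have hunc : ¬ (Set.Ioi (0 : ℝ)).Countable := by
    have := Cardinal.mk_Ioi_real 0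
    intro h
    have h2 := h.le_aleph0
    rw [this] at h2
    exact absurd Cardinal.aleph0_lt_continuum (not_lt.mpr h2)
  exact hunc (hcount.mono hsub)

/-! ### the hyperplanes -/

theorem C_cons_ne (m : ℕ) (u : Fin m → ℝ) (i : Fin (m + 1)) (hi : i ≠ 0) :
    (Fin.cons 0 u : Fin (m + 1) → ℝ) i = u (i.pred hi) := by
  obtain ⟨j, rfl⟩ := Fin.exists_succ_eq.mpr hi
  simp

/-- the evaluation at a residue, as a linear map -/
def C_ev (m : ℕ) (i : Fin (m + 1)) : (Fin m → ℝ) →ₗ[ℝ] ℝ where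
  toFun u := (Fin.cons 0 u : Fin (m + 1) → ℝ) i
  map_add' u v := by
    refine Fin.cases ?_ (fun j => ?_) i
    · simp
    · simp
  map_smul' c u := by
    refine Fin.cases ?_ (fun j => ?_) i
    · simp
    · simp

theorem C_ev_cont (m : ℕ) (i : Fin (m + 1)) :
    Continuous (fun u : Fin m → ℝ => (Fin.cons 0 u : Fin (m + 1) → ℝ) i) :=
  (C_ev m i).continuous_of_finiteDimensional

theorem C_null_hyp (m : ℕ) (i j : Fin (m + 1)) (hi : i ≠ 0) (hj : j ≠ 0) :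
    volume {u : Fin m → ℝ | (Fin.cons 0 u : Fin (m + 1) → ℝ) (i + j) =
      (Fin.cons 0 u : Fin (m + 1) → ℝ) i + (Fin.cons 0 u : Fin (m + 1) → ℝ) j} = 0 := by
  set S : Submodule ℝ (Fin m → ℝ) := LinearMap.ker (C_ev m (i + j) - (C_ev m i + C_ev m j)) with hS
  have hset : {u : Fin m → ℝ | (Fin.cons 0 u : Fin (m + 1) → ℝ) (i + j) =
      (Fin.cons 0 u : Fin (m + 1) → ℝ) i + (Fin.cons 0 u : Fin (m + 1) → ℝ) j} =
      (S : Set (Fin m → ℝ)) := by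
    ext u
    rw [SetLike.mem_coe, hS, LinearMap.mem_ker]
    simp only [LinearMap.sub_apply, LinearMap.add_apply, sub_eq_zero]
    exact Iff.rfl
  rw [hset]
  apply Measure.addHaar_submodule
  intro htop
  have h1 : (fun _ => 1 : Fin m → ℝ) ∈ S := by rw [htop]; exact Submodule.mem_top
  have h2 : (fun _ => 1 : Fin m → ℝ) ∈ (S : Set (Fin m → ℝ)) := h1
  rw [← hset] at h2
  have h3 : (Fin.cons 0 (fun _ => 1 : Fin m → ℝ) : Fin (m + 1) → ℝ) (i + j) =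
      (Fin.cons 0 (fun _ => 1 : Fin m → ℝ) : Fin (m + 1) → ℝ) i +
      (Fin.cons 0 (fun _ => 1 : Fin m → ℝ) : Fin (m + 1) → ℝ) j := h2
  rw [C_cons_ne m _ i hi, C_cons_ne m _ j hj] at h3
  have h4 : (Fin.cons 0 (fun _ => 1 : Fin m → ℝ) : Fin (m + 1) → ℝ) (i + j) ≤ 1 := by
    refine Fin.cases (motive := fun l => (Fin.cons 0 (fun _ => 1 : Fin m → ℝ) :
      Fin (m + 1) → ℝ) l ≤ 1) ?_ (fun l => ?_) (i + j)
    · simp
    · simp
  linarith

/-! ### convergence -/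

theorem C_sqrt_top : Tendsto (fun n : ℕ => √(n : ℝ)) atTop atTop :=
  Real.tendsto_sqrt_atTop.comp tendsto_natCast_atTop_atTop

theorem C_inv_sqrt : Tendsto (fun n : ℕ => (√(n : ℝ))⁻¹) atTop (𝓝 0) :=
  tendsto_inv_atTop_zero.comp C_sqrt_top

theorem C_floor (x : ℝ) :
    Tendsto (fun n : ℕ => (⌊√(n : ℝ) * x⌋ : ℝ) / √(n : ℝ)) atTop (𝓝 x) := by
  rw [tendsto_iff_norm_sub_tendsto_zero]
  refine squeeze_zero' (Eventually.of_forall fun n => norm_nonneg _) ?_ C_inv_sqrt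
  filter_upwards [eventually_ge_atTop 1] with n hn
  have hs : 0 < √(n : ℝ) := Real.sqrt_pos.mpr (by exact_mod_cast hn)
  have h1 : (⌊√(n : ℝ) * x⌋ : ℝ) ≤ √(n : ℝ) * x := Int.floor_le _
  have h2 : √(n : ℝ) * x < ⌊√(n : ℝ) * x⌋ + 1 := Int.lt_floor_add_one _
  have h3 : (⌊√(n : ℝ) * x⌋ : ℝ) / √(n : ℝ) - x =
      ((⌊√(n : ℝ) * x⌋ : ℝ) - √(n : ℝ) * x) * (√(n : ℝ))⁻¹ := by
    field_simp
  rw [h3, norm_mul, Real.norm_eq_abs, Real.norm_eq_abs, abs_of_pos (inv_pos.mpr hs)]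
  have h4 : |(⌊√(n : ℝ) * x⌋ : ℝ) - √(n : ℝ) * x| ≤ 1 := by
    rw [abs_le]
    constructor <;> linarith
  calc |(⌊√(n : ℝ) * x⌋ : ℝ) - √(n : ℝ) * x| * (√(n : ℝ))⁻¹ ≤ 1 * (√(n : ℝ))⁻¹ :=
        mul_le_mul_of_nonneg_right h4 (inv_pos.mpr hs).le
    _ = (√(n : ℝ))⁻¹ := one_mul _

theorem C_dsz_real (m : ℕ) (k : Fin m → ℤ) (n : ℕ) (hn : 1 ≤ n) :
    ((dsz m k : ℤ) : ℝ) / n = (m + 1) * ∑ i, ((k i : ℝ) / √(n : ℝ)) ^ 2 -
      (∑ i, (k i : ℝ) / √(n : ℝ)) ^ 2 +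
      (∑ i : Fin m, (2 * (((i : ℕ) : ℝ) + 1) - m) * ((k i : ℝ) / √(n : ℝ))) * (√(n : ℝ))⁻¹ := by
  have hn0 : (0 : ℝ) < n := by exact_mod_cast hn
  have hs : 0 < √(n : ℝ) := Real.sqrt_pos.mpr hn0
  have hss : √(n : ℝ) ^ 2 = n := Real.sq_sqrt hn0.le
  have e1 : ∑ i, ((k i : ℝ) / √(n : ℝ)) ^ 2 = (∑ i, (k i : ℝ) ^ 2) / n := by
    rw [Finset.sum_div]
    refine Finset.sum_congr rfl (fun i _ => ?_)
    rw [div_pow, hss]
  have e2 : ∑ i, (k i : ℝ) / √(n : ℝ) = (∑ i, (k i : ℝ)) / √(n : ℝ) := by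
    rw [Finset.sum_div]
  have e3 : ∑ i : Fin m, (2 * (((i : ℕ) : ℝ) + 1) - m) * ((k i : ℝ) / √(n : ℝ)) =
      (∑ i : Fin m, (2 * (((i : ℕ) : ℝ) + 1) - m) * (k i : ℝ)) / √(n : ℝ) := by
    rw [Finset.sum_div]
    refine Finset.sum_congr rfl (fun i _ => ?_)
    rw [mul_div_assoc]
  have e4 : ((dsz m k : ℤ) : ℝ) = (m + 1) * ∑ i, (k i : ℝ) ^ 2 - (∑ i, (k i : ℝ)) ^ 2 +
      ∑ i : Fin m, (2 * (((i : ℕ) : ℝ) + 1) - m) * (k i : ℝ) := by
    unfold dsz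
    push_cast
    rfl
  rw [e1, e2, e3, e4, div_pow, hss, div_mul_eq_mul_div, add_div, sub_div]
  have e5 : (∑ i : Fin m, (2 * (((i : ℕ) : ℝ) + 1) - m) * (k i : ℝ)) * (√(n : ℝ))⁻¹ / √(n : ℝ) =
      (∑ i : Fin m, (2 * (((i : ℕ) : ℝ) + 1) - m) * (k i : ℝ)) / n := by
    have e6 : (√(n : ℝ))⁻¹ / √(n : ℝ) = 1 / n := by
      rw [inv_eq_one_div, div_div, ← sq, hss]
    rw [mul_div_assoc, e6, mul_one_div]
  rw [e5]
  ring

theorem C_dsz_tendsto (m : ℕ) (u : Fin m → ℝ) :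
    Tendsto (fun n : ℕ => ((dsz m (fun i => ⌊√(n : ℝ) * u i⌋) : ℤ) : ℝ) / n) atTop
      (𝓝 (qf m u)) := by
  have hlim : Tendsto (fun n : ℕ => ((m : ℝ) + 1) *
      ∑ i, ((⌊√(n : ℝ) * u i⌋ : ℝ) / √(n : ℝ)) ^ 2 -
      (∑ i, (⌊√(n : ℝ) * u i⌋ : ℝ) / √(n : ℝ)) ^ 2 +
      (∑ i : Fin m, (2 * (((i : ℕ) : ℝ) + 1) - m) * ((⌊√(n : ℝ) * u i⌋ : ℝ) / √(n : ℝ))) *
        (√(n : ℝ))⁻¹) atTop
      (𝓝 (((m : ℝ) + 1) * ∑ i, u i ^ 2 - (∑ i, u i) ^ 2 +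
        (∑ i : Fin m, (2 * (((i : ℕ) : ℝ) + 1) - m) * u i) * 0)) := by
    refine Tendsto.add (Tendsto.sub ?_ ?_) ?_
    · exact Tendsto.const_mul _ (tendsto_finsetSum _ (fun i _ => (C_floor (u i)).pow 2))
    · exact (tendsto_finsetSum _ (fun i _ => C_floor (u i))).pow 2
    · exact Tendsto.mul (tendsto_finsetSum _ (fun i _ => (C_floor (u i)).const_mul _)) C_inv_sqrt
  have hval : ((m : ℝ) + 1) * ∑ i, u i ^ 2 - (∑ i, u i) ^ 2 +
        (∑ i : Fin m, (2 * (((i : ℕ) : ℝ) + 1) - m) * u i) * 0 = qf m u := by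
    unfold qf
    ring
  rw [hval] at hlim
  refine hlim.congr' ?_
  filter_upwards [eventually_ge_atTop 1] with n hn
  rw [C_dsz_real m _ n hn]

theorem C_size_iff (m : ℕ) (u : Fin m → ℝ) (hu : qf m u ≠ 2) :
    ∀ᶠ n : ℕ in atTop, (dsz m (fun i => ⌊√(n : ℝ) * u i⌋) ≤ 2 * n ↔ qf m u ≤ 2) := by
  rcases lt_or_gt_of_ne hu with h | h
  · filter_upwards [(C_dsz_tendsto m u).eventually_lt_const h, eventually_ge_atTop 1] with n h1 hn
    have hn0 : (0 : ℝ) < n := by exact_mod_cast hn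
    rw [div_lt_iff₀ hn0] at h1
    have h2 : dsz m (fun i => ⌊√(n : ℝ) * u i⌋) < 2 * n := by exact_mod_cast h1
    exact ⟨fun _ => h.le, fun _ => h2.le⟩
  · filter_upwards [(C_dsz_tendsto m u).eventually_const_lt h, eventually_ge_atTop 1] with n h1 hn
    have hn0 : (0 : ℝ) < n := by exact_mod_cast hn
    rw [lt_div_iff₀ hn0] at h1
    have h2 : 2 * (n : ℤ) < dsz m (fun i => ⌊√(n : ℝ) * u i⌋) := by exact_mod_cast h1
    exact ⟨fun h3 => absurd h3 (not_le.mpr h2), fun h3 => absurd h3 (not_le.mpr h)⟩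

theorem C_nonneg_iff (m : ℕ) (u : Fin m → ℝ) (n : ℕ) (hn : 1 ≤ n) :
    (∀ i, 0 ≤ ⌊√(n : ℝ) * u i⌋) ↔ ∀ i, 0 ≤ u i := by
  have hs : 0 < √(n : ℝ) := Real.sqrt_pos.mpr (by exact_mod_cast hn)
  refine forall_congr' (fun i => ?_)
  rw [Int.floor_nonneg]
  exact mul_nonneg_iff_of_pos_left hs

theorem C_cons_tendsto (m : ℕ) (u : Fin m → ℝ) (i : Fin (m + 1)) :
    Tendsto (fun n : ℕ => (((Fin.cons 0 (fun l => ⌊√(n : ℝ) * u l⌋) : Fin (m + 1) → ℤ) i : ℤ) : ℝ)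
      / √(n : ℝ)) atTop (𝓝 ((Fin.cons 0 u : Fin (m + 1) → ℝ) i)) := by
  refine Fin.cases ?_ (fun j => ?_) i
  · simp
  · simpa using C_floor (u j)

theorem C_kunz_one (m : ℕ) (u : Fin m → ℝ) (i j : Fin (m + 1))
    (hu : (Fin.cons 0 u : Fin (m + 1) → ℝ) (i + j) ≠
      (Fin.cons 0 u : Fin (m + 1) → ℝ) i + (Fin.cons 0 u : Fin (m + 1) → ℝ) j) :
    ∀ᶠ n : ℕ in atTop, ((Fin.cons 0 (fun l => ⌊√(n : ℝ) * u l⌋) : Fin (m + 1) → ℤ) (i + j) ≤
      (Fin.cons 0 (fun l => ⌊√(n : ℝ) * u l⌋) : Fin (m + 1) → ℤ) i +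
      (Fin.cons 0 (fun l => ⌊√(n : ℝ) * u l⌋) : Fin (m + 1) → ℤ) j +
      (if m + 1 ≤ (i : ℕ) + j then 1 else 0) ↔
      (Fin.cons 0 u : Fin (m + 1) → ℝ) (i + j) ≤
      (Fin.cons 0 u : Fin (m + 1) → ℝ) i + (Fin.cons 0 u : Fin (m + 1) → ℝ) j) := by
  set d : ℤ := (if m + 1 ≤ (i : ℕ) + j then 1 else 0) with hd
  set U : Fin (m + 1) → ℝ := (Fin.cons 0 u : Fin (m + 1) → ℝ) with hU
  have hlim : Tendsto (fun n : ℕ =>
      (((Fin.cons 0 (fun l => ⌊√(n : ℝ) * u l⌋) : Fin (m + 1) → ℤ) (i + j) : ℤ) : ℝ) / √(n : ℝ) -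
      ((((Fin.cons 0 (fun l => ⌊√(n : ℝ) * u l⌋) : Fin (m + 1) → ℤ) i : ℤ) : ℝ) / √(n : ℝ) +
      (((Fin.cons 0 (fun l => ⌊√(n : ℝ) * u l⌋) : Fin (m + 1) → ℤ) j : ℤ) : ℝ) / √(n : ℝ) +
      (d : ℝ) * (√(n : ℝ))⁻¹)) atTop (𝓝 (U (i + j) - (U i + U j + (d : ℝ) * 0))) := by
    refine Tendsto.sub (C_cons_tendsto m u (i + j)) (Tendsto.add (Tendsto.add
      (C_cons_tendsto m u i) (C_cons_tendsto m u j)) (C_inv_sqrt.const_mul _))
  rw [mul_zero, add_zero] at hlim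
  rcases lt_or_gt_of_ne hu with h | h
  · have h0 : U (i + j) - (U i + U j) < 0 := by linarith
    filter_upwards [hlim.eventually_lt_const h0, eventually_ge_atTop 1] with n h1 hn
    have hs : 0 < √(n : ℝ) := Real.sqrt_pos.mpr (by exact_mod_cast hn)
    refine ⟨fun _ => h.le, fun _ => ?_⟩
    have h2 : (((Fin.cons 0 (fun l => ⌊√(n : ℝ) * u l⌋) : Fin (m + 1) → ℤ) (i + j) : ℤ) : ℝ) <
      (((Fin.cons 0 (fun l => ⌊√(n : ℝ) * u l⌋) : Fin (m + 1) → ℤ) i : ℤ) : ℝ) +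
      (((Fin.cons 0 (fun l => ⌊√(n : ℝ) * u l⌋) : Fin (m + 1) → ℤ) j : ℤ) : ℝ) + (d : ℝ) := by
      rw [sub_neg, ← add_div, ← div_eq_mul_inv, ← add_div, div_lt_div_iff_of_pos_right hs] at h1
      exact h1
    have h3 : (Fin.cons 0 (fun l => ⌊√(n : ℝ) * u l⌋) : Fin (m + 1) → ℤ) (i + j) <
      (Fin.cons 0 (fun l => ⌊√(n : ℝ) * u l⌋) : Fin (m + 1) → ℤ) i +
      (Fin.cons 0 (fun l => ⌊√(n : ℝ) * u l⌋) : Fin (m + 1) → ℤ) j + d := by
      exact_mod_cast h2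
    exact h3.le
  · have h0 : 0 < U (i + j) - (U i + U j) := by
      have : U i + U j < U (i + j) := h
      linarith
    filter_upwards [hlim.eventually_const_lt h0, eventually_ge_atTop 1] with n h1 hn
    have hs : 0 < √(n : ℝ) := Real.sqrt_pos.mpr (by exact_mod_cast hn)
    refine ⟨fun h5 => ?_, fun h5 => absurd h5 (not_le.mpr h)⟩
    exfalso
    have h2 : (((Fin.cons 0 (fun l => ⌊√(n : ℝ) * u l⌋) : Fin (m + 1) → ℤ) i : ℤ) : ℝ) +
      (((Fin.cons 0 (fun l => ⌊√(n : ℝ) * u l⌋) : Fin (m + 1) → ℤ) j : ℤ) : ℝ) + (d : ℝ) <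
      (((Fin.cons 0 (fun l => ⌊√(n : ℝ) * u l⌋) : Fin (m + 1) → ℤ) (i + j) : ℤ) : ℝ) := by
      rw [sub_pos, ← add_div, ← div_eq_mul_inv, ← add_div, div_lt_div_iff_of_pos_right hs] at h1
      exact h1
    have h3 : (Fin.cons 0 (fun l => ⌊√(n : ℝ) * u l⌋) : Fin (m + 1) → ℤ) i +
      (Fin.cons 0 (fun l => ⌊√(n : ℝ) * u l⌋) : Fin (m + 1) → ℤ) j + d <
      (Fin.cons 0 (fun l => ⌊√(n : ℝ) * u l⌋) : Fin (m + 1) → ℤ) (i + j) := by
      exact_mod_cast h2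
    exact absurd h5 (not_le.mpr h3)

theorem C_kunz_zero (m : ℕ) (u : Fin m → ℝ) (i j : Fin (m + 1)) (hij : i = 0 ∨ j = 0) (n : ℕ) :
    ((Fin.cons 0 (fun l => ⌊√(n : ℝ) * u l⌋) : Fin (m + 1) → ℤ) (i + j) ≤
      (Fin.cons 0 (fun l => ⌊√(n : ℝ) * u l⌋) : Fin (m + 1) → ℤ) i +
      (Fin.cons 0 (fun l => ⌊√(n : ℝ) * u l⌋) : Fin (m + 1) → ℤ) j +
      (if m + 1 ≤ (i : ℕ) + j then 1 else 0) ↔
      (Fin.cons 0 u : Fin (m + 1) → ℝ) (i + j) ≤
      (Fin.cons 0 u : Fin (m + 1) → ℝ) i + (Fin.cons 0 u : Fin (m + 1) → ℝ) j) := by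
  have hd : (0 : ℤ) ≤ (if m + 1 ≤ (i : ℕ) + j then 1 else 0) := by
    split_ifs <;> norm_num
  rcases hij with rfl | rfl
  · rw [zero_add]
    constructor
    · intro _
      simp
    · intro _
      rw [Fin.cons_zero]
      linarith
  · rw [add_zero]
    constructor
    · intro _
      simp
    · intro _
      rw [Fin.cons_zero]
      linarith

theorem C_kunz_iff (m : ℕ) (u : Fin m → ℝ)
    (hu : ∀ i j : Fin (m + 1), i ≠ 0 → j ≠ 0 → (Fin.cons 0 u : Fin (m + 1) → ℝ) (i + j) ≠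
      (Fin.cons 0 u : Fin (m + 1) → ℝ) i + (Fin.cons 0 u : Fin (m + 1) → ℝ) j) :
    ∀ᶠ n : ℕ in atTop, (Kunz m (fun l => ⌊√(n : ℝ) * u l⌋) ↔
      ∀ i j : Fin (m + 1), (Fin.cons 0 u : Fin (m + 1) → ℝ) (i + j) ≤
      (Fin.cons 0 u : Fin (m + 1) → ℝ) i + (Fin.cons 0 u : Fin (m + 1) → ℝ) j) := by
  have h : ∀ i j : Fin (m + 1), ∀ᶠ n : ℕ in atTop,
      ((Fin.cons 0 (fun l => ⌊√(n : ℝ) * u l⌋) : Fin (m + 1) → ℤ) (i + j) ≤
      (Fin.cons 0 (fun l => ⌊√(n : ℝ) * u l⌋) : Fin (m + 1) → ℤ) i +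
      (Fin.cons 0 (fun l => ⌊√(n : ℝ) * u l⌋) : Fin (m + 1) → ℤ) j +
      (if m + 1 ≤ (i : ℕ) + j then 1 else 0) ↔
      (Fin.cons 0 u : Fin (m + 1) → ℝ) (i + j) ≤
      (Fin.cons 0 u : Fin (m + 1) → ℝ) i + (Fin.cons 0 u : Fin (m + 1) → ℝ) j) := by
    intro i j
    by_cases hi : i = 0
    · exact Eventually.of_forall (fun n => C_kunz_zero m u i j (Or.inl hi) n)
    · by_cases hj : j = 0
      · exact Eventually.of_forall (fun n => C_kunz_zero m u i j (Or.inr hj) n)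
      · exact C_kunz_one m u i j (hu i j hi hj)
  have h2 := eventually_all.mpr (fun i => eventually_all.mpr (h i))
  filter_upwards [h2] with n hn
  exact forall_congr' (fun i => forall_congr' (fun j => hn i j))

/-! ### the bound -/

theorem C_bound (m : ℕ) (n : ℕ) (hn : 1 ≤ n) (k : Fin m → ℤ) (hk : k ∈ coreVec m n) (i : Fin m) :
    |(k i : ℝ)| ≤ ((m : ℝ) ^ 3 + m + 3) * √(n : ℝ) := by
  have hn1 : (1 : ℝ) ≤ n := by exact_mod_cast hn
  have hs1 : 1 ≤ √(n : ℝ) := Real.one_le_sqrt.mpr hn1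
  have hss : √(n : ℝ) ^ 2 = n := Real.sq_sqrt (by linarith)
  have hm0 : (0 : ℝ) ≤ m := Nat.cast_nonneg m
  have hd : dsz m k ≤ 2 * n := hk.2
  have hcs : (∑ i, k i) ^ 2 ≤ (m : ℤ) * ∑ i, k i ^ 2 := by
    have h := sq_sum_le_card_mul_sum_sq (s := (Finset.univ : Finset (Fin m))) (f := k)
    simpa only [Finset.card_univ, Fintype.card_fin] using h
  have h1 : ∑ l, k l ^ 2 + ∑ l : Fin m, (2 * ((l : ℤ) + 1) - m) * k l ≤ 2 * n := by
    unfold dsz at hd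
    linarith
  have h2 : ∑ l : Fin m, (k l ^ 2 - m * |k l|) ≤ 2 * n := by
    refine le_trans ?_ h1
    rw [← Finset.sum_add_distrib]
    refine Finset.sum_le_sum (fun l _ => ?_)
    have hl : ((l : ℕ) : ℤ) < m := by exact_mod_cast l.2
    have hl0 : (0 : ℤ) ≤ ((l : ℕ) : ℤ) := Int.natCast_nonneg _
    have hc : |2 * (((l : ℕ) : ℤ) + 1) - m| ≤ m := by
      rw [abs_le]
      constructor <;> linarith
    have h3 : -((m : ℤ) * |k l|) ≤ (2 * (((l : ℕ) : ℤ) + 1) - m) * k l := by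
      have h4 : |(2 * (((l : ℕ) : ℤ) + 1) - m) * k l| ≤ m * |k l| := by
        rw [abs_mul]
        exact mul_le_mul_of_nonneg_right hc (abs_nonneg _)
      exact (abs_le.mp h4).1
    linarith
  have h3 : (k i ^ 2 - m * |k i|) + ∑ l ∈ Finset.univ.erase i, (k l ^ 2 - m * |k l|) ≤ 2 * n := by
    rw [Finset.add_sum_erase Finset.univ (fun l => k l ^ 2 - m * |k l|) (Finset.mem_univ i)]
    exact h2
  have h4 : -((m : ℤ) ^ 3) ≤ ∑ l ∈ Finset.univ.erase i, (k l ^ 2 - m * |k l|) := by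
    have h5 : ∀ l ∈ Finset.univ.erase i, -((m : ℤ) ^ 2) ≤ k l ^ 2 - m * |k l| := by
      intro l _
      have h6 : k l ^ 2 = |k l| ^ 2 := (sq_abs _).symm
      rw [h6]
      nlinarith [sq_nonneg (2 * |k l| - m), sq_nonneg (m : ℤ)]
    have h7 := Finset.card_nsmul_le_sum _ _ _ h5
    rw [nsmul_eq_mul] at h7
    refine le_trans ?_ h7
    have h8 : ((Finset.univ.erase i).card : ℤ) ≤ m := by
      have := Finset.card_le_univ (Finset.univ.erase i)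
      rw [Fintype.card_fin] at this
      exact_mod_cast this
    nlinarith [sq_nonneg (m : ℤ)]
  have h5 : k i ^ 2 - m * |k i| ≤ 2 * n + (m : ℤ) ^ 3 := by linarith
  have h6 : |(k i : ℝ)| ^ 2 - m * |(k i : ℝ)| ≤ 2 * n + (m : ℝ) ^ 3 := by
    rw [sq_abs]
    exact_mod_cast h5
  by_contra hlt
  rw [not_le] at hlt
  set x : ℝ := |(k i : ℝ)| with hx
  set s : ℝ := √(n : ℝ) with hsdef
  have hm3 : (0 : ℝ) ≤ (m : ℝ) ^ 3 := by positivity
  have h7 : (m : ℝ) + ((m : ℝ) ^ 3 + 3) * s ≤ x := by nlinarith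
  have h8 : ((m : ℝ) ^ 3 + 3) * s ≤ x - m := by linarith
  have h9 : 3 * s ≤ x := by nlinarith
  have h10 : (3 * s) * (((m : ℝ) ^ 3 + 3) * s) ≤ x * (x - m) := by
    apply mul_le_mul h9 h8 (by positivity) (by nlinarith)
  have h11 : (3 * s) * (((m : ℝ) ^ 3 + 3) * s) = 3 * ((m : ℝ) ^ 3 + 3) * n := by
    rw [← hss]
    ring
  have h12 : (m : ℝ) ^ 3 ≤ (m : ℝ) ^ 3 * n := by nlinarith
  nlinarith

/-! ### the main statements -/

theorem C_orth_closed (m : ℕ) : IsClosed (cOrth m) := by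
  have : cOrth m = ⋂ i, {u : Fin m → ℝ | 0 ≤ u i} := by
    ext u
    simp [cOrth]
  rw [this]
  exact isClosed_iInter (fun i => isClosed_le continuous_const (continuous_apply i))

theorem C_kunz_closed (m : ℕ) : IsClosed (cKunz m) := by
  have : cKunz m = cOrth m ∩ ⋂ i : Fin (m + 1), ⋂ j : Fin (m + 1), {u : Fin m → ℝ |
      (Fin.cons 0 u : Fin (m + 1) → ℝ) (i + j) ≤
      (Fin.cons 0 u : Fin (m + 1) → ℝ) i + (Fin.cons 0 u : Fin (m + 1) → ℝ) j} := by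
    ext u
    simp only [Set.mem_inter_iff, Set.mem_iInter]
    exact Iff.rfl
  rw [this]
  exact (C_orth_closed m).inter (isClosed_iInter (fun i => isClosed_iInter (fun j =>
    isClosed_le (C_ev_cont m (i + j)) ((C_ev_cont m i).add (C_ev_cont m j)))))

theorem C_ball_closed (m : ℕ) : IsClosed {u : Fin m → ℝ | qf m u ≤ 2} :=
  isClosed_le (C_qf_cont m) continuous_const

theorem C_ae_qf (m : ℕ) : ∀ᵐ u : Fin m → ℝ, qf m u ≠ 2 := by
  rw [ae_iff]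
  simpa using C_null_qf m

theorem C_ae_hyp (m : ℕ) : ∀ᵐ u : Fin m → ℝ, ∀ i j : Fin (m + 1), i ≠ 0 → j ≠ 0 →
    (Fin.cons 0 u : Fin (m + 1) → ℝ) (i + j) ≠
      (Fin.cons 0 u : Fin (m + 1) → ℝ) i + (Fin.cons 0 u : Fin (m + 1) → ℝ) j := by
  rw [ae_all_iff]
  intro i
  rw [ae_all_iff]
  intro j
  by_cases hi : i = 0
  · exact Eventually.of_forall (fun u h => absurd hi h)
  by_cases hj : j = 0
  · exact Eventually.of_forall (fun u _ h => absurd hj h)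
  have h0 := C_null_hyp m i j hi hj
  have h1 : ∀ᵐ u : Fin m → ℝ, ¬ ((Fin.cons 0 u : Fin (m + 1) → ℝ) (i + j) =
      (Fin.cons 0 u : Fin (m + 1) → ℝ) i + (Fin.cons 0 u : Fin (m + 1) → ℝ) j) := by
    rw [ae_iff]
    simpa only [not_not] using h0
  filter_upwards [h1] with u hu _ _
  exact hu

theorem C_core (m : ℕ) :
    Tendsto (fun n : ℕ => ((coreVec m n).ncard : ℝ) / (√n) ^ m) atTop
      (𝓝 (volume.real (cOrth m ∩ {u | qf m u ≤ 2}))) := by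
  refine B_count m (coreVec m) _ ((C_orth_closed m).inter (C_ball_closed m)).measurableSet
    ((m : ℝ) ^ 3 + m + 3) (fun n hn k hk i => C_bound m n hn k hk i) ?_
  filter_upwards [C_ae_qf m] with u hu
  filter_upwards [C_size_iff m u hu, eventually_ge_atTop 1] with n h1 hn
  exact and_congr (C_nonneg_iff m u n hn) h1

theorem C_sem (m : ℕ) :
    Tendsto (fun n : ℕ => ((semVec m n).ncard : ℝ) / (√n) ^ m) atTop
      (𝓝 (volume.real (cKunz m ∩ {u | qf m u ≤ 2}))) := by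
  refine B_count m (semVec m) _ ((C_kunz_closed m).inter (C_ball_closed m)).measurableSet
    ((m : ℝ) ^ 3 + m + 3) (fun n hn k hk i => C_bound m n hn k hk.1 i) ?_
  filter_upwards [C_ae_qf m, C_ae_hyp m] with u hu hu2
  filter_upwards [C_size_iff m u hu, C_kunz_iff m u hu2, eventually_ge_atTop 1] with n h1 h2 hn
  have h3 : (((∀ i, 0 ≤ ⌊√(n : ℝ) * u i⌋) ∧ dsz m (fun i => ⌊√(n : ℝ) * u i⌋) ≤ 2 * n) ∧
      Kunz m (fun l => ⌊√(n : ℝ) * u l⌋)) ↔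
      (((∀ i, 0 ≤ u i) ∧ ∀ i j : Fin (m + 1), (Fin.cons 0 u : Fin (m + 1) → ℝ) (i + j) ≤
      (Fin.cons 0 u : Fin (m + 1) → ℝ) i + (Fin.cons 0 u : Fin (m + 1) → ℝ) j) ∧ qf m u ≤ 2) := by
    rw [C_nonneg_iff m u n hn, h1, h2]
    tauto
  exact h3

/-- The limit volumes are finite and positive. -/
theorem C_pos (m : ℕ) : 0 < volume (cOrth m ∩ {u | qf m u ≤ 2}) ∧
    volume (cOrth m ∩ {u | qf m u ≤ 2}) < ⊤ := by
  constructor
  · have hm1 : (0 : ℝ) < (m : ℝ) + 1 := by positivity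
    set e : ℝ := 1 / ((m : ℝ) + 1) with he
    have he0 : 0 < e := by positivity
    set O : Set (Fin m → ℝ) := Set.univ.pi (fun _ => Set.Ioo 0 e) with hO
    have hopen : IsOpen O := isOpen_set_pi Set.finite_univ (fun _ _ => isOpen_Ioo)
    have hne : O.Nonempty := ⟨fun _ => e / 2, fun i _ => ⟨by positivity, by linarith⟩⟩
    refine lt_of_lt_of_le (hopen.measure_pos volume hne) (measure_mono ?_)
    intro u hu
    have hu' : ∀ i, 0 < u i ∧ u i < e := fun i => hu i (Set.mem_univ i)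
    refine ⟨fun i => (hu' i).1.le, ?_⟩
    show qf m u ≤ 2
    unfold qf
    have h1 : ∑ i, u i ^ 2 ≤ m * e ^ 2 := by
      calc ∑ i, u i ^ 2 ≤ ∑ _i : Fin m, e ^ 2 := Finset.sum_le_sum (fun i _ => by
            have := hu' i
            nlinarith)
        _ = m * e ^ 2 := by simp
    have h2 : ((m : ℝ) + 1) * (m * e ^ 2) ≤ 2 := by
      have h3 : ((m : ℝ) + 1) * e = 1 := by
        rw [he]
        field_simp
      have h4 : (m : ℝ) * e ≤ 1 := by nlinarith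
      calc ((m : ℝ) + 1) * (m * e ^ 2) = (((m : ℝ) + 1) * e) * ((m : ℝ) * e) := by ring
        _ = (m : ℝ) * e := by rw [h3, one_mul]
        _ ≤ 2 := by linarith
    have h5 : ((m : ℝ) + 1) * ∑ i, u i ^ 2 ≤ ((m : ℝ) + 1) * (m * e ^ 2) :=
      mul_le_mul_of_nonneg_left h1 hm1.le
    nlinarith [sq_nonneg (∑ i, u i)]
  · refine lt_of_le_of_lt (measure_mono ?_)
      (measure_closedBall_lt_top (μ := (volume : Measure (Fin m → ℝ))) (x := 0) (r := 2))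
    rintro u ⟨_, hu⟩
    have hu' : qf m u ≤ 2 := hu
    rw [Metric.mem_closedBall, dist_zero_right, pi_norm_le_iff_of_nonneg (by norm_num)]
    intro i
    have h1 := C_sq_le m u
    have h2 : u i ^ 2 ≤ ∑ i, u i ^ 2 :=
      Finset.single_le_sum (f := fun i => u i ^ 2) (fun i _ => sq_nonneg _) (Finset.mem_univ i)
    have h3 : u i ^ 2 ≤ 2 := by linarith
    rw [Real.norm_eq_abs, abs_le]
    constructor <;> nlinarith

end Pool.Agent.MP_16d773_co
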