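import Mathlib

/-!
Definitions for MP_16d773_co (proportion of core partitions coming from numerical semigroups).
-/

namespace Pool.Agent.MP_16d773_co

open MeasureTheory ProbabilityTheory

/-- The hook length of the cell `(i, j)` of a Young diagram (row `i`, column `j`). -/
def hook (μ : YoungDiagram) (i j : ℕ) : ℕ := (μ.rowLen i - j) + (μ.colLen j - i) - 1

/-- `μ` is an `a`-core: no cell of `μ` has hook length divisible by `a`. -/
def IsCore (a : ℕ) (μ : YoungDiagram) : Prop := ∀ i j, (i, j) ∈ μ → ¬ a ∣ hook μ i j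

/-- `φ(μ)`: the complement of the set of hook lengths of the cells in the first column. -/
def numSet (μ : YoungDiagram) : Set ℕ := {t | ∀ i, (i, 0) ∈ μ → hook μ i 0 ≠ t}

/-- closed under addition -/
def AddClosed (T : Set ℕ) : Prop := ∀ x ∈ T, ∀ y ∈ T, x + y ∈ T

/-- number of `a`-cores of size at most `n` -/
noncomputable def coreCount (a n : ℕ) : ℕ := {μ : YoungDiagram | IsCore a μ ∧ μ.card ≤ n}.ncard

/-- number of `a`-cores of size at most `n` that are associated to a numerical semigroup -/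
noncomputable def semigroupCoreCount (a n : ℕ) : ℕ :=
  {μ : YoungDiagram | (IsCore a μ ∧ μ.card ≤ n) ∧ AddClosed (numSet μ)}.ncard

/-! ### Internal definitions -/

/-- twice the size of the `(m + 1)`-core with vector `k` -/
def dsz (m : ℕ) (k : Fin m → ℤ) : ℤ :=
  (m + 1) * ∑ i, k i ^ 2 - (∑ i, k i) ^ 2 + ∑ i : Fin m, (2 * ((i : ℤ) + 1) - m) * k i

/-- the Kunz inequalities: `k` is indexed by the nonzero residues (`k i` belongs to the residue
`i + 1` modulo `m + 1`), the residue `0` has value `0`. -/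
def Kunz (m : ℕ) (k : Fin m → ℤ) : Prop :=
  ∀ i j : Fin (m + 1), (Fin.cons 0 k : Fin (m + 1) → ℤ) (i + j) ≤
    (Fin.cons 0 k : Fin (m + 1) → ℤ) i + (Fin.cons 0 k : Fin (m + 1) → ℤ) j +
      (if m + 1 ≤ (i : ℕ) + j then 1 else 0)

/-- vectors of cores of size at most `n` -/
def coreVec (m n : ℕ) : Set (Fin m → ℤ) := {k | (∀ i, 0 ≤ k i) ∧ dsz m k ≤ 2 * n}

/-- vectors of semigroup cores of size at most `n` -/
def semVec (m n : ℕ) : Set (Fin m → ℤ) := {k | ((∀ i, 0 ≤ k i) ∧ dsz m k ≤ 2 * n) ∧ Kunz m k}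

/-- the quadratic form -/
def qf (m : ℕ) (u : Fin m → ℝ) : ℝ := (m + 1) * ∑ i, u i ^ 2 - (∑ i, u i) ^ 2

/-- the cone of all nonnegative vectors -/
def cOrth (m : ℕ) : Set (Fin m → ℝ) := {u | ∀ i, 0 ≤ u i}

/-- the Kunz cone -/
def cKunz (m : ℕ) : Set (Fin m → ℝ) :=
  {u | (∀ i, 0 ≤ u i) ∧ ∀ i j : Fin (m + 1), (Fin.cons 0 u : Fin (m + 1) → ℝ) (i + j) ≤
    (Fin.cons 0 u : Fin (m + 1) → ℝ) i + (Fin.cons 0 u : Fin (m + 1) → ℝ) j}

end Pool.Agent.MP_16d773_co
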