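import Pool.Agent.MP_16d773_co.Defs

/-!
Gaussian measure of cones, for MP_16d773_co.
-/

namespace Pool.Agent.MP_16d773_co

open MeasureTheory ProbabilityTheory Filter Topology
open scoped Pointwise

lemma measurable_prod_gauss (n : ℕ) :
    Measurable (fun x : Fin n → ℝ => ∏ i, gaussianPDFReal 0 1 (x i)) := by
  apply Finset.measurable_prod
  intro i _
  exact (measurable_gaussianPDFReal 0 1).comp (measurable_pi_apply i)

/-- density of a finite product of standard Gaussians -/
lemma pi_gauss_density (n : ℕ) :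
    Measure.pi (fun _ : Fin n => gaussianReal 0 1) =
      (volume : Measure (Fin n → ℝ)).withDensity
        (fun x => ENNReal.ofReal (∏ i, gaussianPDFReal 0 1 (x i))) := by
  refine Measure.pi_eq (fun s hs => ?_)
  rw [withDensity_apply _ (MeasurableSet.univ_pi hs), volume_pi,
    Measure.restrict_pi_pi]
  rw [← ofReal_integral_eq_lintegral_ofReal]
  · rw [integral_fintype_prod_eq_prod (fun _ => gaussianPDFReal 0 1)]
    rw [ENNReal.ofReal_prod_of_nonneg]
    · refine Finset.prod_congr rfl (fun i _ => ?_)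
      rw [gaussianReal_apply_eq_integral _ one_ne_zero]
    · intro i _
      exact integral_nonneg (fun x => gaussianPDFReal_nonneg 0 1 x)
  · exact Integrable.fintype_prod_dep (fun i => (integrable_gaussianPDFReal 0 1).restrict)
  · exact Eventually.of_forall (fun x => Finset.prod_nonneg (fun i _ => gaussianPDFReal_nonneg 0 1 _))

lemma prod_gauss_eq (m : ℕ) (s : ℝ) (x : Fin m → ℝ) :
    gaussianPDFReal 0 1 s * ∏ i, gaussianPDFReal 0 1 (x i + s) =
      ((√(2 * Real.pi))⁻¹ ^ (m + 1) * Real.exp (-((m + 1) * (s + (∑ i, x i) / (m + 1)) ^ 2) / 2)) *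
        Real.exp (-(qf m x) / (2 * (m + 1))) := by
  have h1 : ∀ t : ℝ, gaussianPDFReal 0 1 t = (√(2 * Real.pi))⁻¹ * Real.exp (-t ^ 2 / 2) := by
    intro t
    rw [gaussianPDFReal]
    simp
  simp_rw [h1]
  rw [Finset.prod_mul_distrib, Finset.prod_const, Finset.card_univ, Fintype.card_fin,
    ← Real.exp_sum]
  rw [show (√(2 * Real.pi))⁻¹ * Real.exp (-s ^ 2 / 2) *
      ((√(2 * Real.pi))⁻¹ ^ m * Real.exp (∑ i : Fin m, -(x i + s) ^ 2 / 2)) =
      (√(2 * Real.pi))⁻¹ ^ (m + 1) * (Real.exp (-s ^ 2 / 2) *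
        Real.exp (∑ i : Fin m, -(x i + s) ^ 2 / 2)) by ring]
  rw [← Real.exp_add, mul_assoc, ← Real.exp_add]
  congr 2
  rw [← Finset.sum_div]
  have h2 : ∑ i : Fin m, -(x i + s) ^ 2 = -(∑ i, x i ^ 2) - 2 * s * (∑ i, x i) - m * s ^ 2 := by
    have : ∀ i : Fin m, -(x i + s) ^ 2 = -(x i ^ 2) - 2 * s * x i - s ^ 2 := by
      intro i; ring
    simp_rw [this]
    rw [Finset.sum_sub_distrib, Finset.sum_sub_distrib, Finset.sum_neg_distrib, ← Finset.mul_sum,
      Finset.sum_const, Finset.card_univ, Fintype.card_fin, nsmul_eq_mul]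
  rw [h2, qf]
  have h3 : (m : ℝ) + 1 ≠ 0 := by positivity
  field_simp
  ring


/-- the radial profile -/
noncomputable def profA (m : ℕ) (s : ℝ) : ℝ :=
  (√(2 * Real.pi))⁻¹ ^ (m + 1) * Real.exp (-((m + 1) * s ^ 2) / 2)

noncomputable def profB (m : ℕ) (x : Fin m → ℝ) : ℝ := Real.exp (-(qf m x) / (2 * (m + 1)))

lemma measurable_qf (m : ℕ) : Measurable (qf m) := by
  unfold qf
  fun_prop

lemma measurable_profB (m : ℕ) : Measurable (profB m) := by
  unfold profB
  exact Real.measurable_exp.comp (((measurable_qf m).neg).div_const _)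

lemma measurable_profA (m : ℕ) : Measurable (profA m) := by
  unfold profA
  fun_prop

lemma profA_nonneg (m : ℕ) (s : ℝ) : 0 ≤ profA m s := by
  unfold profA
  positivity

lemma gauss_cone_step (m : ℕ) (K : Set (Fin m → ℝ)) (hK : MeasurableSet K) :
    (Measure.pi (fun _ : Fin (m + 1) => gaussianReal 0 1))
      {y | (fun i : Fin m => y i.succ - y 0) ∈ K} =
    (∫⁻ s, ENNReal.ofReal (profA m s)) * ∫⁻ x in K, ENNReal.ofReal (profB m x) := by
  have hdiff : Measurable (fun y : Fin (m + 1) → ℝ => (fun i : Fin m => y i.succ - y 0)) := by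
    refine measurable_pi_lambda _ (fun i => ?_)
    exact (measurable_pi_apply i.succ).sub (measurable_pi_apply 0)
  have hS : MeasurableSet {y : Fin (m + 1) → ℝ | (fun i : Fin m => y i.succ - y 0) ∈ K} :=
    hdiff hK
  rw [pi_gauss_density, withDensity_apply _ hS, ← lintegral_indicator hS]
  have hmp := (volume_preserving_piFinSuccAbove (fun _ : Fin (m + 1) => ℝ) 0).symm
  rw [← hmp.lintegral_comp_emb (MeasurableEquiv.measurableEmbedding _)]
  have hpt : ∀ p : ℝ × (Fin m → ℝ),
      ({y : Fin (m + 1) → ℝ | (fun i : Fin m => y i.succ - y 0) ∈ K}).indicator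
        (fun x => ENNReal.ofReal (∏ i, gaussianPDFReal 0 1 (x i)))
        ((MeasurableEquiv.piFinSuccAbove (fun _ : Fin (m + 1) => ℝ) 0).symm p) =
      K.indicator 1 (fun i => p.2 i - p.1) *
        ENNReal.ofReal (gaussianPDFReal 0 1 p.1 * ∏ i, gaussianPDFReal 0 1 (p.2 i)) := by
    intro p
    have h1 : (MeasurableEquiv.piFinSuccAbove (fun _ : Fin (m + 1) => ℝ) 0).symm p =
        Fin.cons p.1 p.2 := by
      simp [MeasurableEquiv.piFinSuccAbove, Fin.insertNthEquiv]
    rw [h1]
    by_cases hp : (fun i => p.2 i - p.1) ∈ K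
    · rw [Set.indicator_of_mem (by simpa using hp), Set.indicator_of_mem hp, Fin.prod_univ_succ]
      simp
    · rw [Set.indicator_of_notMem (by simpa using hp), Set.indicator_of_notMem hp, zero_mul]
  rw [lintegral_congr hpt]
  have hind : Measurable (K.indicator (1 : (Fin m → ℝ) → ENNReal)) := measurable_one.indicator hK
  have hd2 : Measurable (fun p : ℝ × (Fin m → ℝ) => (fun i => p.2 i - p.1 : Fin m → ℝ)) := by
    refine measurable_pi_lambda _ (fun i => ?_)
    exact ((measurable_pi_apply i).comp measurable_snd).sub measurable_fst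
  have hg : Measurable (fun p : ℝ × (Fin m → ℝ) =>
      gaussianPDFReal 0 1 p.1 * ∏ i, gaussianPDFReal 0 1 (p.2 i)) :=
    ((measurable_gaussianPDFReal 0 1).comp measurable_fst).mul
      ((measurable_prod_gauss m).comp measurable_snd)
  have hΦ : Measurable (fun p : ℝ × (Fin m → ℝ) => K.indicator 1 (fun i => p.2 i - p.1) *
        ENNReal.ofReal (gaussianPDFReal 0 1 p.1 * ∏ i, gaussianPDFReal 0 1 (p.2 i))) :=
    (hind.comp hd2).mul hg.ennreal_ofReal
  rw [Measure.volume_eq_prod, lintegral_prod _ hΦ.aemeasurable]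
  have hin : ∀ s : ℝ, (∫⁻ z : Fin m → ℝ, K.indicator 1 (fun i => z i - s) *
        ENNReal.ofReal (gaussianPDFReal 0 1 s * ∏ i, gaussianPDFReal 0 1 (z i))) =
      ∫⁻ x : Fin m → ℝ, ENNReal.ofReal (profA m (s + (∑ i, x i) / (m + 1))) *
        K.indicator (fun x => ENNReal.ofReal (profB m x)) x := by
    intro s
    rw [← lintegral_add_right_eq_self _ (fun _ : Fin m => s)]
    refine lintegral_congr (fun x => ?_)
    simp only [Pi.add_apply, add_sub_cancel_right]
    by_cases hx : x ∈ K
    · rw [Set.indicator_of_mem (by simpa using hx), Set.indicator_of_mem hx, Pi.one_apply, one_mul,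
        prod_gauss_eq, ← ENNReal.ofReal_mul (profA_nonneg m _)]
      rfl
    · rw [Set.indicator_of_notMem (by simpa using hx), Set.indicator_of_notMem hx, zero_mul,
        mul_zero]
  simp only at hin ⊢
  simp_rw [hin]
  have hA : Measurable (fun p : ℝ × (Fin m → ℝ) => ENNReal.ofReal
      (profA m (p.1 + (∑ i, p.2 i) / (m + 1)))) := by
    refine ((measurable_profA m).comp ?_).ennreal_ofReal
    fun_prop
  have hB : Measurable (K.indicator (fun x => ENNReal.ofReal (profB m x))) :=
    (measurable_profB m).ennreal_ofReal.indicator hK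
  rw [lintegral_lintegral_swap]
  · have hin2 : ∀ x : Fin m → ℝ, (∫⁻ s : ℝ, ENNReal.ofReal (profA m (s + (∑ i, x i) / (m + 1))) *
        K.indicator (fun x => ENNReal.ofReal (profB m x)) x) =
        (∫⁻ s, ENNReal.ofReal (profA m s)) * K.indicator (fun x => ENNReal.ofReal (profB m x)) x := by
      intro x
      rw [lintegral_mul_const'' _]
      · rw [lintegral_add_right_eq_self (fun s => ENNReal.ofReal (profA m s))]
      · exact (hA.comp (measurable_id.prodMk measurable_const)).aemeasurable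
    simp_rw [hin2]
    rw [lintegral_const_mul _ hB, lintegral_indicator hK]
  · exact (hA.mul (hB.comp measurable_snd)).aemeasurable


lemma qf_smul (m : ℕ) (t : ℝ) (u : Fin m → ℝ) : qf m (t • u) = t ^ 2 * qf m u := by
  unfold qf
  simp only [Pi.smul_apply, smul_eq_mul, ← Finset.mul_sum, mul_pow]
  ring

lemma qf_nonneg (m : ℕ) (u : Fin m → ℝ) : 0 ≤ qf m u := by
  unfold qf
  have h := sq_sum_le_card_mul_sum_sq (s := (Finset.univ : Finset (Fin m))) (f := u)
  rw [Finset.card_univ, Fintype.card_fin] at h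
  have h2 : 0 ≤ ∑ i, u i ^ 2 := Finset.sum_nonneg (fun i _ => sq_nonneg _)
  nlinarith

lemma volume_cone (m : ℕ) (K : Set (Fin m → ℝ)) (hc : ∀ t : ℝ, 0 < t → ∀ u ∈ K, t • u ∈ K)
    (r : ℝ) (hr : 0 < r) :
    volume (K ∩ {u | qf m u ≤ r}) = ENNReal.ofReal (√(r / 2) ^ m) *
      volume (K ∩ {u | qf m u ≤ 2}) := by
  have hl : 0 < √(r / 2) := by positivity
  have hl2 : √(r / 2) ^ 2 = r / 2 := Real.sq_sqrt (by positivity)
  have heq : K ∩ {u | qf m u ≤ r} = √(r / 2) • (K ∩ {u | qf m u ≤ 2}) := by
    ext u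
    rw [Set.mem_smul_set_iff_inv_smul_mem₀ hl.ne']
    simp only [Set.mem_inter_iff, Set.mem_ofPred_eq]
    constructor
    · rintro ⟨h1, h2⟩
      refine ⟨hc _ (inv_pos.mpr hl) u h1, ?_⟩
      rw [qf_smul, inv_pow, hl2, inv_mul_le_iff₀ (by positivity)]
      linarith
    · rintro ⟨h1, h2⟩
      constructor
      · have := hc _ hl _ h1
        rwa [smul_inv_smul₀ hl.ne'] at this
      · rw [qf_smul, inv_pow, hl2, inv_mul_le_iff₀ (by positivity)] at h2
        linarith
  rw [heq, Measure.addHaar_smul, Module.finrank_fin_fun, abs_of_nonneg (by positivity)]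

lemma cone_integral (m : ℕ) : ∃ c : ENNReal, ∀ K : Set (Fin m → ℝ), MeasurableSet K →
    (∀ t : ℝ, 0 < t → ∀ u ∈ K, t • u ∈ K) →
    ∫⁻ x in K, ENNReal.ofReal (profB m x) = c * volume (K ∩ {u | qf m u ≤ 2}) := by
  set h : ℝ → ENNReal := fun t => if t < 1 then
    ENNReal.ofReal (√((-(2 * (m + 1) * Real.log t)) / 2) ^ m) else 0 with hh
  have hhm : Measurable h := by
    refine Measurable.ite measurableSet_Iio ?_ measurable_const
    exact ((((Real.measurable_log.const_mul _).neg.div_const _).sqrt).pow_const m).ennreal_ofReal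
  refine ⟨∫⁻ t in Set.Ioi (0 : ℝ), h t, fun K hK hc => ?_⟩
  rw [lintegral_eq_lintegral_meas_le]
  · rw [← lintegral_mul_const _ hhm]
    refine lintegral_congr_ae ?_
    have h1 : ∀ᵐ t ∂(volume.restrict (Set.Ioi (0 : ℝ))), t ≠ 1 :=
      ae_restrict_of_ae (Measure.ae_ne volume 1)
    filter_upwards [h1, ae_restrict_mem measurableSet_Ioi] with t ht1 ht0
    have ht0' : 0 < t := ht0
    have hmeas : MeasurableSet {a | t ≤ profB m a} := measurableSet_le measurable_const (measurable_profB m)
    rw [Measure.restrict_apply hmeas]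
    have hm1 : (0 : ℝ) < 2 * (m + 1) := by positivity
    rcases lt_or_gt_of_ne ht1 with hlt | hgt
    · have hlog : Real.log t < 0 := Real.log_neg ht0' hlt
      have hr : 0 < -(2 * (m + 1) * Real.log t) := by nlinarith
      simp only [hh, if_pos hlt]
      rw [← volume_cone m K hc _ hr]
      congr 1
      ext u
      simp only [Set.mem_inter_iff, Set.mem_ofPred_eq, profB]
      rw [and_comm]
      refine and_congr_right (fun _ => ?_)
      rw [← Real.log_le_iff_le_exp ht0', le_div_iff₀ hm1]
      constructor <;> intro h <;> linarith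
    · simp only [hh, if_neg (not_lt.mpr hgt.le), zero_mul]
      have : {a | t ≤ profB m a} ∩ K = ∅ := by
        ext u
        simp only [Set.mem_inter_iff, Set.mem_ofPred_eq, Set.mem_empty_iff_false, iff_false, not_and]
        intro hu
        exfalso
        have : profB m u ≤ 1 := by
          unfold profB
          rw [Real.exp_le_one_iff]
          have := qf_nonneg m u
          apply div_nonpos_of_nonpos_of_nonneg <;> linarith
        linarith
      rw [this, measure_empty]
  · exact Eventually.of_forall (fun x => (Real.exp_pos _).le)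
  · exact (measurable_profB m).aemeasurable

/-- iid standard Gaussians: the probability that the vector of differences lies in a cone is a constant times
the volume of the truncated cone. -/
theorem E_gauss (m : ℕ) : ∃ c : ENNReal, c ≠ 0 ∧ c ≠ ⊤ ∧ ∀ K : Set (Fin m → ℝ), MeasurableSet K →
    (∀ t : ℝ, 0 < t → ∀ u ∈ K, t • u ∈ K) →
    (Measure.pi (fun _ : Fin (m + 1) => gaussianReal 0 1))
      {y | (fun i : Fin m => y i.succ - y 0) ∈ K} = c * volume (K ∩ {u | qf m u ≤ 2}) := by
  obtain ⟨c3, hc3⟩ := cone_integral m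
  set c := (∫⁻ s, ENNReal.ofReal (profA m s)) * c3 with hc
  have key : ∀ K : Set (Fin m → ℝ), MeasurableSet K →
    (∀ t : ℝ, 0 < t → ∀ u ∈ K, t • u ∈ K) →
    (Measure.pi (fun _ : Fin (m + 1) => gaussianReal 0 1))
      {y | (fun i : Fin m => y i.succ - y 0) ∈ K} = c * volume (K ∩ {u | qf m u ≤ 2}) := by
    intro K hK hKc
    rw [gauss_cone_step m K hK, hc3 K hK hKc, hc, mul_assoc]
  have h1 := key Set.univ MeasurableSet.univ (fun _ _ _ _ => Set.mem_univ _)
  simp only [Set.mem_univ, Set.univ_inter] at h1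
  have h2 : (Measure.pi (fun _ : Fin (m + 1) => gaussianReal 0 1))
      {y : Fin (m + 1) → ℝ | True} = 1 := by
    rw [Set.ofPred_true]
    exact measure_univ
  rw [h2] at h1
  refine ⟨c, ?_, ?_, key⟩
  · intro h0
    rw [h0, zero_mul] at h1
    exact one_ne_zero h1
  · intro ht
    rw [ht] at h1
    by_cases hV : volume {u | qf m u ≤ 2} = 0
    · rw [hV, mul_zero] at h1
      exact one_ne_zero h1
    · rw [ENNReal.top_mul hV] at h1
      exact ENNReal.one_ne_top h1

end Pool.Agent.MP_16d773_co
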