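import Pool.Agent.MP_16d773_co.Defs

namespace Pool.Agent.MP_16d773_co

open MeasureTheory ProbabilityTheory Filter Topology

lemma F_null (m : ℕ) (c c' : Fin (m + 1)) (h : c ≠ c') :
    (Measure.pi (fun _ : Fin (m + 1) => gaussianReal 0 1)) {y | y c = y c'} = 0 := by
  have hna : NullSingletonClass (gaussianReal 0 1) := nullSingletonClass_gaussianReal one_ne_zero
  have mp := measurePreserving_piFinSuccAbove (fun _ : Fin (m + 1) => gaussianReal 0 1) c
  obtain ⟨j, hj⟩ := Fin.exists_succAbove_eq h.symm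
  have hs : {y : Fin (m + 1) → ℝ | y c = y c'} =
      (MeasurableEquiv.piFinSuccAbove (fun _ => ℝ) c) ⁻¹' {p : ℝ × (Fin m → ℝ) | p.1 = p.2 j} := by
    ext y
    simp [MeasurableEquiv.piFinSuccAbove, Fin.insertNthEquiv, Fin.removeNth, hj]
  have hmeas : MeasurableSet {p : ℝ × (Fin m → ℝ) | p.1 = p.2 j} :=
    measurableSet_eq_fun (by fun_prop) (by fun_prop)
  rw [hs, mp.measure_preimage hmeas.nullMeasurableSet, Measure.prod_apply_symm hmeas]
  rw [lintegral_eq_zero_iff (measurable_measure_prodMk_right hmeas)]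
  refine Eventually.of_forall (fun z => ?_)
  have : ((fun x : ℝ => (x, z)) ⁻¹' {p : ℝ × (Fin m → ℝ) | p.1 = p.2 j}) = {z j} := by
    ext x
    simp
  show (gaussianReal 0 1) ((fun x : ℝ => (x, z)) ⁻¹' {p : ℝ × (Fin m → ℝ) | p.1 = p.2 j}) = 0
  rw [this]
  exact measure_singleton _

theorem F_sym (m : ℕ) : (Measure.pi (fun _ : Fin (m + 1) => gaussianReal 0 1))
    {y : Fin (m + 1) → ℝ | ∀ i, y 0 ≤ y i} = ((m : ENNReal) + 1)⁻¹ := by
  set P := (Measure.pi (fun _ : Fin (m + 1) => gaussianReal 0 1)) with hP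
  let A : Fin (m + 1) → Set (Fin (m + 1) → ℝ) := fun c => {y | ∀ i, y c ≤ y i}
  have hA : ∀ c, MeasurableSet (A c) := by
    intro c
    have : A c = ⋂ i, {y | y c ≤ y i} := by
      ext y
      simp [A]
    rw [this]
    exact MeasurableSet.iInter (fun i => measurableSet_le (by fun_prop) (by fun_prop))
  have hsame : ∀ c, P (A c) = P (A 0) := by
    intro c
    have mp := measurePreserving_piCongrLeft (fun _ : Fin (m + 1) => gaussianReal 0 1)
      (Equiv.swap (0 : Fin (m + 1)) c)
    have := mp.measure_preimage (hA 0).nullMeasurableSet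
    rw [← hP] at this
    rw [← this]
    congr 1
    ext y
    simp only [Set.mem_preimage, A, Set.mem_ofPred_eq]
    have key : ∀ i, (MeasurableEquiv.piCongrLeft (fun _ => ℝ) (Equiv.swap (0 : Fin (m + 1)) c)) y i =
        y ((Equiv.swap (0 : Fin (m + 1)) c).symm i) := by
      intro i
      conv_lhs => rw [← Equiv.apply_symm_apply (Equiv.swap (0 : Fin (m + 1)) c) i]
      exact Equiv.piCongrLeft_apply_apply (fun _ => ℝ) _ y _
    simp only [key]
    constructor
    · intro h i
      simpa using h ((Equiv.swap (0 : Fin (m + 1)) c).symm i)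
    · intro h i
      simpa using h ((Equiv.swap (0 : Fin (m + 1)) c) i)
  have hun : (⋃ c, A c) = Set.univ := by
    ext y
    simp only [Set.mem_iUnion, Set.mem_univ, iff_true]
    obtain ⟨c, hc⟩ := Finite.exists_min y
    exact ⟨c, hc⟩
  have hdis : Pairwise (Function.onFun (AEDisjoint P) A) := by
    intro c c' h
    refine measure_mono_null ?_ (F_null m c c' h)
    rintro y ⟨h1, h2⟩
    exact le_antisymm (h1 c') (h2 c)
  have hsum : P (⋃ c, A c) = ∑ c, P (A c) := by
    rw [measure_iUnion₀ hdis (fun c => (hA c).nullMeasurableSet), tsum_fintype]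
  rw [hun, measure_univ] at hsum
  simp only [hsame, Finset.sum_const, Finset.card_univ, Fintype.card_fin, nsmul_eq_mul] at hsum
  have : P (A 0) = (((m + 1 : ℕ) : ENNReal))⁻¹ := by
    apply ENNReal.eq_inv_of_mul_eq_one_left
    rw [mul_comm]
    exact hsum.symm
  rw [← Nat.cast_succ]
  exact this

end Pool.Agent.MP_16d773_co
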