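import Pool.Agent.MP_16d773_co.Defs

/-!
Orthant probabilities in dimension two and three, for MP_16d773_co.
-/

namespace Pool.Agent.MP_16d773_co

open MeasureTheory ProbabilityTheory Filter Topology

section Plane

/-- the planar angular set -/
lemma prod_gauss_density :
    (gaussianReal 0 1).prod (gaussianReal 0 1) =
      (volume : Measure (ℝ × ℝ)).withDensity
        (fun p => ENNReal.ofReal (gaussianPDFReal 0 1 p.1 * gaussianPDFReal 0 1 p.2)) := by
  rw [gaussianReal_of_var_ne_zero _ one_ne_zero,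
    prod_withDensity (measurable_gaussianPDF 0 1) (measurable_gaussianPDF 0 1),
    Measure.volume_eq_prod]
  congr 1
  funext p
  rw [gaussianPDF, gaussianPDF, ← ENNReal.ofReal_mul (gaussianPDFReal_nonneg _ _ _)]

lemma plane_polar (A : Set ℝ) (hA : MeasurableSet A) (S : Set (ℝ × ℝ)) (hS : MeasurableSet S)
    (hAS : ∀ r θ : ℝ, 0 < r → θ ∈ Set.Ioo (-Real.pi) Real.pi →
      ((r * Real.cos θ, r * Real.sin θ) ∈ S ↔ θ ∈ A)) :
    ((gaussianReal 0 1).prod (gaussianReal 0 1)) S =
      (∫⁻ r in Set.Ioi (0 : ℝ), ENNReal.ofReal r * ENNReal.ofReal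
        ((√(2 * Real.pi))⁻¹ ^ 2 * Real.exp (- r ^ 2 / 2))) *
        volume (A ∩ Set.Ioo (-Real.pi) Real.pi) := by
  have hg : Measurable (fun p : ℝ × ℝ =>
      ENNReal.ofReal (gaussianPDFReal 0 1 p.1 * gaussianPDFReal 0 1 p.2)) := by
    exact (((measurable_gaussianPDFReal 0 1).comp measurable_fst).mul
      ((measurable_gaussianPDFReal 0 1).comp measurable_snd)).ennreal_ofReal
  rw [prod_gauss_density, withDensity_apply _ hS, ← lintegral_indicator hS,
    ← lintegral_comp_polarCoord_symm]
  have htar : polarCoord.target = Set.Ioi (0 : ℝ) ×ˢ Set.Ioo (-Real.pi) Real.pi := rfl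
  have hmt : MeasurableSet polarCoord.target := by
    rw [htar]
    exact measurableSet_Ioi.prod measurableSet_Ioo
  have hcongr : ∀ p ∈ polarCoord.target,
      ENNReal.ofReal p.1 • S.indicator (fun p : ℝ × ℝ =>
        ENNReal.ofReal (gaussianPDFReal 0 1 p.1 * gaussianPDFReal 0 1 p.2)) (polarCoord.symm p) =
      (ENNReal.ofReal p.1 * ENNReal.ofReal ((√(2 * Real.pi))⁻¹ ^ 2 * Real.exp (- p.1 ^ 2 / 2))) *
        A.indicator 1 p.2 := by
    intro p hp
    rw [htar] at hp
    obtain ⟨hp1, hp2⟩ := hp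
    have hsym : polarCoord.symm p = (p.1 * Real.cos p.2, p.1 * Real.sin p.2) := rfl
    rw [hsym]
    by_cases h : p.2 ∈ A
    · rw [Set.indicator_of_mem ((hAS p.1 p.2 hp1 hp2).mpr h), Set.indicator_of_mem h, Pi.one_apply,
        mul_one, smul_eq_mul]
      congr 2
      simp only [gaussianPDFReal]
      simp only [NNReal.coe_one, mul_one, sub_zero]
      rw [show ∀ a b c : ℝ, a * b * (a * c) = a ^ 2 * (b * c) by intros; ring, ← Real.exp_add]
      congr 2
      have := Real.sin_sq_add_cos_sq p.2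
      rw [← add_div]
      congr 1
      calc -(p.1 * Real.cos p.2) ^ 2 + -(p.1 * Real.sin p.2) ^ 2 =
          -(p.1 ^ 2) * (Real.sin p.2 ^ 2 + Real.cos p.2 ^ 2) := by ring
        _ = - p.1 ^ 2 := by rw [this, mul_one]
    · rw [Set.indicator_of_notMem (fun h' => h ((hAS p.1 p.2 hp1 hp2).mp h')),
        Set.indicator_of_notMem h, smul_zero, mul_zero]
  rw [setLIntegral_congr_fun hmt hcongr, htar, Measure.volume_eq_prod,
    ← Measure.prod_restrict]
  rw [lintegral_prod_mul (f := fun r => ENNReal.ofReal r *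
      ENNReal.ofReal ((√(2 * Real.pi))⁻¹ ^ 2 * Real.exp (- r ^ 2 / 2))) (g := A.indicator 1)]
  · congr 1
    rw [lintegral_indicator_one hA, Measure.restrict_apply hA]
  · fun_prop
  · exact (measurable_one.indicator hA).aemeasurable

/-- the radial constant -/
lemma radial_const :
    (∫⁻ r in Set.Ioi (0 : ℝ), ENNReal.ofReal r * ENNReal.ofReal
        ((√(2 * Real.pi))⁻¹ ^ 2 * Real.exp (- r ^ 2 / 2))) = ENNReal.ofReal (1 / (2 * Real.pi)) := by
  have h := plane_polar Set.univ MeasurableSet.univ Set.univ MeasurableSet.univ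
    (fun _ _ _ _ => by simp)
  rw [measure_univ, Set.univ_inter, Real.volume_Ioo] at h
  have hpi := Real.pi_pos
  rw [one_div, ENNReal.ofReal_inv_of_pos (by positivity)]
  have e1 : Real.pi - -Real.pi = 2 * Real.pi := by ring
  rw [e1] at h
  exact ENNReal.eq_inv_of_mul_eq_one_left h.symm

/-- Orthant probability in the plane. -/
theorem G_plane (t : ℝ) (h0 : 0 ≤ t) (h1 : t ≤ Real.pi) :
    ((gaussianReal 0 1).prod (gaussianReal 0 1)) {p : ℝ × ℝ | 0 < p.1 ∧
      0 < Real.cos t * p.1 + Real.sin t * p.2} = ENNReal.ofReal (1 / 2 - t / (2 * Real.pi)) := by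
  have hpi := Real.pi_pos
  have hS : MeasurableSet {p : ℝ × ℝ | 0 < p.1 ∧ 0 < Real.cos t * p.1 + Real.sin t * p.2} := by
    apply MeasurableSet.inter
    · exact measurableSet_lt measurable_const measurable_fst
    · have hm : Measurable (fun p : ℝ × ℝ => Real.cos t * p.1 + Real.sin t * p.2) := by fun_prop
      exact measurableSet_lt measurable_const hm
  rw [plane_polar (Set.Ioo (t - Real.pi / 2) (Real.pi / 2)) measurableSet_Ioo _ hS]
  · rw [radial_const]
    have e1 : Set.Ioo (t - Real.pi / 2) (Real.pi / 2) ∩ Set.Ioo (-Real.pi) Real.pi =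
        Set.Ioo (t - Real.pi / 2) (Real.pi / 2) := by
      apply Set.inter_eq_left.mpr
      apply Set.Ioo_subset_Ioo <;> linarith
    rw [e1, Real.volume_Ioo, ← ENNReal.ofReal_mul (by positivity)]
    congr 1
    field_simp
    ring
  · intro r θ hr hθ
    simp only [Set.mem_ofPred_eq, Set.mem_Ioo]
    have e2 : Real.cos t * (r * Real.cos θ) + Real.sin t * (r * Real.sin θ) =
        r * Real.cos (θ - t) := by
      rw [Real.cos_sub]; ring
    rw [e2, mul_pos_iff_of_pos_left hr, mul_pos_iff_of_pos_left hr]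
    obtain ⟨ha, hb⟩ := hθ
    constructor
    · rintro ⟨hc1, hc2⟩
      have hlt : |θ| < Real.pi / 2 := by
        by_contra hge
        push Not at hge
        have : Real.cos |θ| ≤ 0 := Real.cos_nonpos_of_pi_div_two_le_of_le hge (by
          rw [abs_le]; constructor <;> linarith)
        rw [Real.cos_abs] at this
        linarith
      rw [abs_lt] at hlt
      refine ⟨?_, hlt.2⟩
      by_contra hge
      push Not at hge
      have : Real.cos (t - θ) ≤ 0 := Real.cos_nonpos_of_pi_div_two_le_of_le (by linarith) (by linarith)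
      rw [← Real.cos_neg, neg_sub] at this
      linarith
    · rintro ⟨hc1, hc2⟩
      exact ⟨Real.cos_pos_of_mem_Ioo ⟨by linarith, hc2⟩,
        Real.cos_pos_of_mem_Ioo ⟨by linarith, by linarith⟩⟩

end Plane

section Linear

variable {n : ℕ}

lemma hasGaussianLaw_coords (n : ℕ) :
    HasGaussianLaw (fun y : Fin n → ℝ => (fun i => y i))
      (Measure.pi (fun _ : Fin n => gaussianReal 0 1)) := by
  refine iIndepFun.hasGaussianLaw (X := fun i (y : Fin n → ℝ) => y i) (fun i => ?_) ?_
  · constructor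
    have : (Measure.pi (fun _ : Fin n => gaussianReal 0 1)).map (fun y => y i) = gaussianReal 0 1 :=
      (measurePreserving_eval (fun _ : Fin n => gaussianReal 0 1) i).map_eq
    rw [this]
    infer_instance
  · exact iIndepFun_pi (X := fun _ => id) (fun _ => aemeasurable_id)

/-- a linear form -/
noncomputable def lin (v : Fin n → ℝ) : (Fin n → ℝ) →L[ℝ] ℝ :=
  ∑ i, v i • ContinuousLinearMap.proj i

lemma lin_apply (v y : Fin n → ℝ) : lin v y = ∑ i, v i * y i := by
  simp [lin]

lemma hasGaussianLaw_clm {F : Type*} [NormedAddCommGroup F] [NormedSpace ℝ F] [MeasurableSpace F]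
    [BorelSpace F] (L : (Fin n → ℝ) →L[ℝ] F) :
    HasGaussianLaw (fun y => L y) (Measure.pi (fun _ : Fin n => gaussianReal 0 1)) :=
  (hasGaussianLaw_coords n).map L

lemma memLp_coord (i : Fin n) :
    MemLp (fun y : Fin n → ℝ => y i) 2 (Measure.pi (fun _ : Fin n => gaussianReal 0 1)) := by
  have hmp := measurePreserving_eval (fun _ : Fin n => gaussianReal 0 1) i
  exact (memLp_id_gaussianReal' (μ := 0) (v := 1) 2 (by simp)).comp_measurePreserving hmp

lemma cov_coord (i j : Fin n) :
    cov[fun y : Fin n → ℝ => y i, fun y => y j; Measure.pi (fun _ : Fin n => gaussianReal 0 1)] =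
      if i = j then 1 else 0 := by
  split_ifs with h
  · subst h
    rw [covariance_self (memLp_coord i).aemeasurable]
    have hmp := measurePreserving_eval (fun _ : Fin n => gaussianReal 0 1) i
    have := hmp.variance_fun_comp (f := id) aemeasurable_id
    simp only [Function.eval, id] at this
    rw [this]
    simp
  · have hind : iIndepFun (fun i (y : Fin n → ℝ) => y i)
        (Measure.pi (fun _ : Fin n => gaussianReal 0 1)) :=
      iIndepFun_pi (X := fun _ => id) (fun _ => aemeasurable_id)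
    exact (hind.indepFun h).covariance_eq_zero (memLp_coord i) (memLp_coord j)

lemma cov_lin (v w : Fin n → ℝ) :
    cov[fun y => lin v y, fun y => lin w y; Measure.pi (fun _ : Fin n => gaussianReal 0 1)] =
      ∑ i, v i * w i := by
  simp only [lin_apply]
  rw [covariance_fun_sum_fun_sum (fun i => (memLp_coord i).const_mul (v i))
    (fun i => (memLp_coord i).const_mul (w i))]
  simp only [covariance_const_mul_left, covariance_const_mul_right, cov_coord]
  simp [mul_comm]

lemma integral_lin (v : Fin n → ℝ) :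
    ∫ y, lin v y ∂(Measure.pi (fun _ : Fin n => gaussianReal 0 1)) = 0 := by
  simp only [lin_apply]
  rw [integral_finsetSum]
  · refine Finset.sum_eq_zero (fun i _ => ?_)
    rw [integral_const_mul]
    have hmp := measurePreserving_eval (fun _ : Fin n => gaussianReal 0 1) i
    have h2 : ∫ y : Fin n → ℝ, y i ∂(Measure.pi (fun _ : Fin n => gaussianReal 0 1)) =
        ∫ x, x ∂(gaussianReal 0 1) := by
      have := integral_map (μ := Measure.pi (fun _ : Fin n => gaussianReal 0 1))
        (φ := Function.eval i) hmp.measurable.aemeasurable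
        (f := id) aestronglyMeasurable_id
      rw [hmp.map_eq] at this
      exact this.symm
    rw [h2, integral_id_gaussianReal, mul_zero]
  · intro i _
    exact ((memLp_coord i).integrable (by norm_num)).const_mul _

lemma map_lin (v : Fin n → ℝ) (hv : ∑ i, v i ^ 2 = 1) :
    (Measure.pi (fun _ : Fin n => gaussianReal 0 1)).map (fun y => lin v y) = gaussianReal 0 1 := by
  rw [(hasGaussianLaw_clm (lin v)).map_eq_gaussianReal]
  have h1 : Var[fun y => lin v y; Measure.pi (fun _ : Fin n => gaussianReal 0 1)] = 1 := by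
    rw [← covariance_self (hasGaussianLaw_clm (lin v)).aemeasurable, cov_lin, ← hv]
    refine Finset.sum_congr rfl (fun i _ => by ring)
  rw [integral_lin, h1, Real.toNNReal_one]

lemma map_lin_pair (v w : Fin n → ℝ) (hv : ∑ i, v i ^ 2 = 1) (hw : ∑ i, w i ^ 2 = 1)
    (hvw : ∑ i, v i * w i = 0) :
    (Measure.pi (fun _ : Fin n => gaussianReal 0 1)).map (fun y => (lin v y, lin w y)) =
      (gaussianReal 0 1).prod (gaussianReal 0 1) := by
  have h1 : HasGaussianLaw (fun y => (lin v y, lin w y))
      (Measure.pi (fun _ : Fin n => gaussianReal 0 1)) :=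
    hasGaussianLaw_clm ((lin v).prod (lin w))
  have h2 := h1.indepFun_of_covariance_eq_zero (by rw [cov_lin, hvw])
  rw [(indepFun_iff_map_prod_eq_prod_map_map (hasGaussianLaw_clm (lin v)).aemeasurable
    (hasGaussianLaw_clm (lin w)).aemeasurable).mp h2, map_lin v hv, map_lin w hw]

lemma half_line : (gaussianReal 0 1) (Set.Ioi (0 : ℝ)) = ENNReal.ofReal (1 / 2) := by
  have h := G_plane 0 le_rfl Real.pi_pos.le
  have e : {p : ℝ × ℝ | 0 < p.1 ∧ 0 < Real.cos 0 * p.1 + Real.sin 0 * p.2} =
      Set.Ioi (0 : ℝ) ×ˢ Set.univ := by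
    ext p
    simp
  rw [e, Measure.prod_prod, measure_univ, mul_one] at h
  rw [h]
  norm_num

/-- The probability of the intersection of two half spaces. -/
theorem G_two (n : ℕ) (v w : Fin n → ℝ) (t : ℝ) (h0 : 0 ≤ t) (h1 : t ≤ Real.pi)
    (hv : v ≠ 0) (hw : w ≠ 0)
    (hvw : ∑ i, v i * w i = √(∑ i, v i ^ 2) * √(∑ i, w i ^ 2) * Real.cos t) :
    (Measure.pi (fun _ : Fin n => gaussianReal 0 1))
      {y | 0 < ∑ i, v i * y i ∧ 0 < ∑ i, w i * y i} = ENNReal.ofReal (1 / 2 - t / (2 * Real.pi)) := by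
  have hpos : ∀ u : Fin n → ℝ, u ≠ 0 → 0 < ∑ i, u i ^ 2 := by
    intro u hu
    obtain ⟨j, hj⟩ := Function.ne_iff.mp hu
    exact Finset.sum_pos' (fun i _ => sq_nonneg _) ⟨j, Finset.mem_univ j, by
      have : u j ≠ 0 := hj
      positivity⟩
  set a := √(∑ i, v i ^ 2) with ha
  set b := √(∑ i, w i ^ 2) with hb
  have ha0 : 0 < a := Real.sqrt_pos.mpr (hpos v hv)
  have hb0 : 0 < b := Real.sqrt_pos.mpr (hpos w hw)
  have ha2 : a ^ 2 = ∑ i, v i ^ 2 := Real.sq_sqrt (hpos v hv).le
  have hb2 : b ^ 2 = ∑ i, w i ^ 2 := Real.sq_sqrt (hpos w hw).le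
  have hpi := Real.pi_pos
  have hv1 : ∑ i, (v i / a) ^ 2 = 1 := by
    simp_rw [div_pow]
    rw [← Finset.sum_div, ← ha2, div_self (by positivity)]
  have hlinv : ∀ y : Fin n → ℝ, ∑ i, v i * y i = a * lin (fun i => v i / a) y := by
    intro y
    rw [lin_apply, Finset.mul_sum]
    refine Finset.sum_congr rfl (fun i _ => by field_simp)
  have hlinw : ∀ y : Fin n → ℝ, ∑ i, w i * y i = b * lin (fun i => w i / b) y := by
    intro y
    rw [lin_apply, Finset.mul_sum]
    refine Finset.sum_congr rfl (fun i _ => by field_simp)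
  have hset : {y : Fin n → ℝ | 0 < ∑ i, v i * y i ∧ 0 < ∑ i, w i * y i} =
      {y | 0 < lin (fun i => v i / a) y ∧ 0 < lin (fun i => w i / b) y} := by
    ext y
    simp only [Set.mem_ofPred_eq]
    rw [hlinv, hlinw, mul_pos_iff_of_pos_left ha0, mul_pos_iff_of_pos_left hb0]
  rw [hset]
  rcases (Real.sin_nonneg_of_nonneg_of_le_pi h0 h1).eq_or_lt with hs | hs
  · -- degenerate case
    have hcs : Real.cos t ^ 2 = 1 := by
      have := Real.sin_sq_add_cos_sq t
      rw [← hs] at this
      linarith [this, sq_nonneg (Real.cos t)]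
    have hwe : ∀ i, w i / b = Real.cos t * (v i / a) := by
      have hz : ∑ i, (w i / b - Real.cos t * (v i / a)) ^ 2 = 0 := by
        have e1 : ∀ i, (w i / b - Real.cos t * (v i / a)) ^ 2 =
            w i ^ 2 / b ^ 2 - 2 * Real.cos t / (a * b) * (v i * w i) +
              Real.cos t ^ 2 * (v i ^ 2 / a ^ 2) := by
          intro i
          field_simp
          ring
        simp_rw [e1]
        rw [Finset.sum_add_distrib, Finset.sum_sub_distrib, ← Finset.mul_sum, ← Finset.mul_sum,
          ← Finset.sum_div, ← Finset.sum_div, ← ha2, ← hb2, hvw, hcs]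
        field_simp
        rw [hcs]
        ring
      intro i
      have := (Finset.sum_eq_zero_iff_of_nonneg (fun i _ => sq_nonneg _)).mp hz i (Finset.mem_univ i)
      have := pow_eq_zero_iff (two_ne_zero) |>.mp this
      linarith
    have hlw : ∀ y, lin (fun i => w i / b) y = Real.cos t * lin (fun i => v i / a) y := by
      intro y
      rw [lin_apply, lin_apply, Finset.mul_sum]
      refine Finset.sum_congr rfl (fun i _ => by rw [hwe]; ring)
    rcases sq_eq_one_iff.mp hcs with hc | hc
    · -- `t = 0`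
      have ht : t = 0 := by
        by_contra hne
        have hlt : 0 < t := lt_of_le_of_ne h0 (Ne.symm hne)
        have := Real.cos_lt_cos_of_nonneg_of_le_pi le_rfl h1 hlt
        rw [Real.cos_zero, hc] at this
        exact lt_irrefl _ this
      have e2 : {y : Fin n → ℝ | 0 < lin (fun i => v i / a) y ∧ 0 < lin (fun i => w i / b) y} =
          (fun y => lin (fun i => v i / a) y) ⁻¹' (Set.Ioi 0) := by
        ext y
        simp only [Set.mem_ofPred_eq, Set.mem_preimage, Set.mem_Ioi]
        rw [hlw, hc, one_mul, and_self_iff]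
      rw [e2, ← Measure.map_apply (by fun_prop) measurableSet_Ioi, map_lin _ hv1, half_line, ht]
      simp
    · -- `t = π`
      have ht : t = Real.pi := by
        by_contra hne
        have hlt : t < Real.pi := lt_of_le_of_ne h1 hne
        have := Real.cos_lt_cos_of_nonneg_of_le_pi h0 le_rfl hlt
        rw [Real.cos_pi, hc] at this
        exact lt_irrefl _ this
      have e2 : {y : Fin n → ℝ | 0 < lin (fun i => v i / a) y ∧ 0 < lin (fun i => w i / b) y} =
          ∅ := by
        ext y
        simp only [Set.mem_ofPred_eq, Set.mem_empty_iff_false, iff_false, not_and, not_lt]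
        rw [hlw, hc]
        intro h
        linarith
      rw [e2, measure_empty, ht]
      rw [show (1 : ℝ) / 2 - Real.pi / (2 * Real.pi) = 0 by field_simp; ring]
      simp
  · -- general case
    set e : Fin n → ℝ := fun i => (w i / b - Real.cos t * (v i / a)) / Real.sin t with he
    have hsc := Real.sin_sq_add_cos_sq t
    have he1 : ∑ i, e i ^ 2 = 1 := by
      have e1 : ∀ i, e i ^ 2 =
          (w i ^ 2 / b ^ 2 - 2 * Real.cos t / (a * b) * (v i * w i) +
            Real.cos t ^ 2 * (v i ^ 2 / a ^ 2)) / Real.sin t ^ 2 := by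
        intro i
        rw [he]
        field_simp
        ring
      simp_rw [e1]
      rw [← Finset.sum_div, Finset.sum_add_distrib, Finset.sum_sub_distrib, ← Finset.mul_sum,
        ← Finset.mul_sum, ← Finset.sum_div, ← Finset.sum_div, ← ha2, ← hb2, hvw,
        div_eq_one_iff_eq (by positivity)]
      field_simp
      linarith
    have he2 : ∑ i, (v i / a) * e i = 0 := by
      have e1 : ∀ i, (v i / a) * e i =
          ((v i * w i) / (a * b) - Real.cos t * (v i ^ 2 / a ^ 2)) / Real.sin t := by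
        intro i
        rw [he]
        field_simp
      simp_rw [e1]
      rw [← Finset.sum_div, Finset.sum_sub_distrib, ← Finset.mul_sum, ← Finset.sum_div,
        ← Finset.sum_div, ← ha2, hvw]
      field_simp
      ring
    have hlw : ∀ y, lin (fun i => w i / b) y =
        Real.cos t * lin (fun i => v i / a) y + Real.sin t * lin e y := by
      intro y
      rw [lin_apply, lin_apply, lin_apply, Finset.mul_sum, Finset.mul_sum,
        ← Finset.sum_add_distrib]
      refine Finset.sum_congr rfl (fun i _ => ?_)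
      rw [he]
      field_simp
      ring
    have hS : MeasurableSet {p : ℝ × ℝ | 0 < p.1 ∧ 0 < Real.cos t * p.1 + Real.sin t * p.2} := by
      apply MeasurableSet.inter
      · exact measurableSet_lt measurable_const measurable_fst
      · have hm : Measurable (fun p : ℝ × ℝ => Real.cos t * p.1 + Real.sin t * p.2) := by fun_prop
        exact measurableSet_lt measurable_const hm
    have e2 : {y : Fin n → ℝ | 0 < lin (fun i => v i / a) y ∧ 0 < lin (fun i => w i / b) y} =
        (fun y => (lin (fun i => v i / a) y, lin e y)) ⁻¹'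
          {p : ℝ × ℝ | 0 < p.1 ∧ 0 < Real.cos t * p.1 + Real.sin t * p.2} := by
      ext y
      simp only [Set.mem_ofPred_eq, Set.mem_preimage]
      rw [hlw]
    rw [e2, ← Measure.map_apply (by fun_prop) hS, map_lin_pair _ _ hv1 he1 he2, G_plane t h0 h1]


/-- half spaces -/
def hsp (v : Fin n → ℝ) : Set (Fin n → ℝ) := {y | 0 < ∑ i, v i * y i}

lemma measurable_form (v : Fin n → ℝ) : Measurable (fun y : Fin n → ℝ => ∑ i, v i * y i) := by
  fun_prop

lemma measurableSet_hsp (v : Fin n → ℝ) : MeasurableSet (hsp v) :=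
  measurableSet_lt measurable_const (measurable_form v)

lemma hsp_inter_real (v w : Fin n → ℝ) (t : ℝ) (h0 : 0 ≤ t) (h1 : t ≤ Real.pi)
    (hv : v ≠ 0) (hw : w ≠ 0)
    (hvw : ∑ i, v i * w i = √(∑ i, v i ^ 2) * √(∑ i, w i ^ 2) * Real.cos t) :
    (Measure.pi (fun _ : Fin n => gaussianReal 0 1)).real (hsp v ∩ hsp w) =
      1 / 2 - t / (2 * Real.pi) := by
  have h := G_two n v w t h0 h1 hv hw hvw
  have hpi := Real.pi_pos
  have e : hsp v ∩ hsp w = {y | 0 < ∑ i, v i * y i ∧ 0 < ∑ i, w i * y i} := rfl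
  rw [Measure.real, e, h, ENNReal.toReal_ofReal]
  rw [sub_nonneg, div_le_div_iff₀ (by positivity) (by positivity)]
  linarith

lemma hsp_real (v : Fin n → ℝ) (hv : v ≠ 0) :
    (Measure.pi (fun _ : Fin n => gaussianReal 0 1)).real (hsp v) = 1 / 2 := by
  have h := hsp_inter_real v v 0 le_rfl Real.pi_pos.le hv hv (by
    rw [Real.cos_zero, mul_one, Real.mul_self_sqrt (Finset.sum_nonneg (fun i _ => sq_nonneg _))]
    refine Finset.sum_congr rfl (fun i _ => by ring))
  rw [Set.inter_self] at h
  rw [h]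
  simp

lemma measurePreserving_neg_gauss (n : ℕ) :
    MeasurePreserving (fun y : Fin n → ℝ => (fun i => - y i))
      (Measure.pi (fun _ : Fin n => gaussianReal 0 1))
      (Measure.pi (fun _ : Fin n => gaussianReal 0 1)) := by
  refine measurePreserving_pi _ _ (fun i => ⟨measurable_neg, ?_⟩)
  have := gaussianReal_map_neg (μ := 0) (v := 1)
  rw [neg_zero] at this
  exact this

lemma null_hyperplane (v : Fin n → ℝ) (hv : v ≠ 0) :
    ∀ᵐ y ∂(Measure.pi (fun _ : Fin n => gaussianReal 0 1)), ∑ i, v i * y i ≠ 0 := by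
  have h1 := hsp_real v hv
  have h2 : (Measure.pi (fun _ : Fin n => gaussianReal 0 1)).real
      {y | ∑ i, v i * y i < 0} = 1 / 2 := by
    have e : {y : Fin n → ℝ | ∑ i, v i * y i < 0} = (fun y : Fin n → ℝ => (fun i => - y i)) ⁻¹' hsp v := by
      ext y
      simp [hsp]
    rw [e, (measurePreserving_neg_gauss n).measureReal_preimage
      (measurableSet_hsp v).nullMeasurableSet, h1]
  have hm2 : MeasurableSet {y : Fin n → ℝ | ∑ i, v i * y i < 0} :=
    measurableSet_lt (measurable_form v) measurable_const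
  have hdis : Disjoint (hsp v) {y : Fin n → ℝ | ∑ i, v i * y i < 0} := by
    rw [Set.disjoint_left]
    intro y hy hy'
    simp only [hsp, Set.mem_ofPred_eq] at hy hy'
    linarith
  have h3 : (Measure.pi (fun _ : Fin n => gaussianReal 0 1)).real
      (hsp v ∪ {y | ∑ i, v i * y i < 0}) = 1 := by
    rw [measureReal_union hdis hm2, h1, h2]
    norm_num
  have h4 : (Measure.pi (fun _ : Fin n => gaussianReal 0 1)).real
      (hsp v ∪ {y | ∑ i, v i * y i < 0})ᶜ = 0 := by
    rw [probReal_compl_eq_one_sub ((measurableSet_hsp v).union hm2), h3, sub_self]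
  rw [measureReal_eq_zero_iff] at h4
  rw [ae_iff]
  refine measure_mono_null ?_ h4
  intro y hy
  simp only [hsp, Set.mem_ofPred_eq, not_not, Set.mem_compl_iff, Set.mem_union] at hy ⊢
  rw [hy]
  simp

/-- The probability of the intersection of three half spaces. -/
theorem G_three (n : ℕ) (u v w : Fin n → ℝ) (hu : u ≠ 0) (hv : v ≠ 0) (hw : w ≠ 0)
    (a b c : ℝ) (ha0 : 0 ≤ a) (ha1 : a ≤ Real.pi) (hb0 : 0 ≤ b) (hb1 : b ≤ Real.pi)
    (hc0 : 0 ≤ c) (hc1 : c ≤ Real.pi)
    (huv : ∑ i, u i * v i = √(∑ i, u i ^ 2) * √(∑ i, v i ^ 2) * Real.cos c)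
    (huw : ∑ i, u i * w i = √(∑ i, u i ^ 2) * √(∑ i, w i ^ 2) * Real.cos b)
    (hvw : ∑ i, v i * w i = √(∑ i, v i ^ 2) * √(∑ i, w i ^ 2) * Real.cos a) :
    (Measure.pi (fun _ : Fin n => gaussianReal 0 1)).real
      {y | 0 < ∑ i, u i * y i ∧ 0 < ∑ i, v i * y i ∧ 0 < ∑ i, w i * y i} =
      1 / 2 - (a + b + c) / (4 * Real.pi) := by
  set μ := Measure.pi (fun _ : Fin n => gaussianReal 0 1) with hμ
  have hpi := Real.pi_pos
  have pu := hsp_real u hu
  have pv := hsp_real v hv
  have pw := hsp_real w hw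
  have puv := hsp_inter_real u v c hc0 hc1 hu hv huv
  have puw := hsp_inter_real u w b hb0 hb1 hu hw huw
  have pvw := hsp_inter_real v w a ha0 ha1 hv hw hvw
  rw [← hμ] at pu pv pw puv puw pvw
  have hmu := measurableSet_hsp u
  have hmv := measurableSet_hsp v
  have hmw := measurableSet_hsp w
  have e : {y : Fin n → ℝ | 0 < ∑ i, u i * y i ∧ 0 < ∑ i, v i * y i ∧ 0 < ∑ i, w i * y i} =
      hsp u ∩ (hsp v ∩ hsp w) := rfl
  rw [e]
  -- inclusion-exclusion
  have i1 := measureReal_union_add_inter (μ := μ) (s := hsp u) hmv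
  have i2 := measureReal_union_add_inter (μ := μ) (s := hsp u ∪ hsp v) hmw
  have i3 := measureReal_union_add_inter (μ := μ) (s := hsp u ∩ hsp w) (hmv.inter hmw)
  have e3 : (hsp u ∪ hsp v) ∩ hsp w = (hsp u ∩ hsp w) ∪ (hsp v ∩ hsp w) := Set.union_inter_distrib_right _ _ _
  have e4 : (hsp u ∩ hsp w) ∩ (hsp v ∩ hsp w) = hsp u ∩ (hsp v ∩ hsp w) := by
    ext y
    simp only [Set.mem_inter_iff]
    tauto
  rw [e3] at i2
  rw [e4] at i3
  -- complement
  have hcompl : μ.real ((hsp u ∪ hsp v) ∪ hsp w)ᶜ = 1 - μ.real ((hsp u ∪ hsp v) ∪ hsp w) :=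
    probReal_compl_eq_one_sub ((hmu.union hmv).union hmw)
  have hsym : μ.real ((hsp u ∪ hsp v) ∪ hsp w)ᶜ = μ.real (hsp u ∩ (hsp v ∩ hsp w)) := by
    have h1 : μ.real (hsp u ∩ (hsp v ∩ hsp w)) =
        μ.real ((fun y : Fin n → ℝ => (fun i => - y i)) ⁻¹' (hsp u ∩ (hsp v ∩ hsp w))) :=
      ((measurePreserving_neg_gauss n).measureReal_preimage
        (hmu.inter (hmv.inter hmw)).nullMeasurableSet).symm
    rw [h1]
    refine measureReal_congr ?_
    filter_upwards [null_hyperplane u hu, null_hyperplane v hv, null_hyperplane w hw] with y h1 h2 h3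
    apply propext
    change ¬ ((0 < ∑ i, u i * y i ∨ 0 < ∑ i, v i * y i) ∨ 0 < ∑ i, w i * y i) ↔
      (0 < ∑ i, u i * -y i ∧ 0 < ∑ i, v i * -y i ∧ 0 < ∑ i, w i * -y i)
    simp only [mul_neg, Finset.sum_neg_distrib, Left.neg_pos_iff]
    constructor
    · intro h
      push Not at h
      exact ⟨lt_of_le_of_ne h.1.1 h1, lt_of_le_of_ne h.1.2 h2, lt_of_le_of_ne h.2 h3⟩
    · rintro ⟨a1, a2, a3⟩ h
      rcases h with (h | h) | h <;> linarith
  have : (1 : ℝ) / 2 - (a + b + c) / (4 * Real.pi) =
      ((1 / 2 - a / (2 * Real.pi)) + (1 / 2 - b / (2 * Real.pi)) + (1 / 2 - c / (2 * Real.pi)) -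
        1 / 2) / 2 := by
    field_simp
    ring
  rw [this]
  linarith

end Linear

end Pool.Agent.MP_16d773_co
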