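import Pool.Agent.MP_16d773_co.A3
import Pool.Agent.MP_16d773_co.C
import Pool.Agent.MP_16d773_co.E
import Pool.Agent.MP_16d773_co.Asm

namespace Pool.Agent.MP_16d773_co

open MeasureTheory ProbabilityTheory Filter Topology

theorem limit_fin (m : ℕ) :
    Tendsto (fun n : ℕ => (semigroupCoreCount (m + 1) n : ℝ) / (coreCount (m + 1) n)) atTop
      (𝓝 (((m + 1 : ℕ) : ℝ) * (Measure.pi (fun _ : Fin (m + 1) => gaussianReal 0 1)).real
        {y | ∀ i j, y (i + j) + y 0 ≤ y i + y j})) :=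
  assemble m (A3_core m) (A3_sem m) (C_core m) (C_sem m) (C_pos m) (E_gauss m)

end Pool.Agent.MP_16d773_co
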