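import Pool.Agent.MP_16d773_co.Limit
import Pool.Agent.MP_16d773_co.G

/-!
The values at `a = 3` and `a = 4`.
-/

namespace Pool.Agent.MP_16d773_co

open MeasureTheory ProbabilityTheory Filter Topology

theorem three_prob : (Measure.pi (fun _ : Fin 3 => gaussianReal 0 1)).real
    {y : Fin 3 → ℝ | ∀ i j, y (i + j) + y 0 ≤ y i + y j} = 1 / 6 := by
  have hv : (![-1, 2, -1] : Fin 3 → ℝ) ≠ 0 := by
    intro h
    have := congrFun h 1
    simp at this
  have hw : (![-1, -1, 2] : Fin 3 → ℝ) ≠ 0 := by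
    intro h
    have := congrFun h 2
    simp at this
  have hpi := Real.pi_pos
  have h := hsp_inter_real (![-1, 2, -1] : Fin 3 → ℝ) (![-1, -1, 2] : Fin 3 → ℝ)
    (2 * Real.pi / 3) (by positivity) (by linarith) hv hw (by
      have h3 : Real.cos (2 * Real.pi / 3) = - (1 / 2) := by
        rw [show 2 * Real.pi / 3 = Real.pi - Real.pi / 3 by ring, Real.cos_pi_sub,
          Real.cos_pi_div_three]
      rw [h3]
      have e6 : √((6 : ℝ)) * √6 = 6 := Real.mul_self_sqrt (by norm_num)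
      simp only [Fin.sum_univ_three, Matrix.cons_val_zero, Matrix.cons_val_one, Matrix.cons_val]
      rw [show (-1 : ℝ) ^ 2 + 2 ^ 2 + (-1) ^ 2 = 6 by norm_num,
        show (-1 : ℝ) ^ 2 + (-1) ^ 2 + 2 ^ 2 = 6 by norm_num, e6]
      norm_num)
  have e : (Measure.pi (fun _ : Fin 3 => gaussianReal 0 1)).real
    {y : Fin 3 → ℝ | ∀ i j, y (i + j) + y 0 ≤ y i + y j} =
    (Measure.pi (fun _ : Fin 3 => gaussianReal 0 1)).real
      (hsp (![-1, 2, -1] : Fin 3 → ℝ) ∩ hsp (![-1, -1, 2] : Fin 3 → ℝ)) := by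
    refine measureReal_congr ?_
    filter_upwards [null_hyperplane _ hv, null_hyperplane _ hw] with y h1 h2
    apply propext
    change (∀ i j : Fin 3, y (i + j) + y 0 ≤ y i + y j) ↔
      (0 < ∑ i, (![-1, 2, -1] : Fin 3 → ℝ) i * y i ∧ 0 < ∑ i, (![-1, -1, 2] : Fin 3 → ℝ) i * y i)
    simp only [Fin.sum_univ_three] at h1 h2 ⊢
    simp only [Matrix.cons_val_zero, Matrix.cons_val_one, Matrix.cons_val] at h1 h2 ⊢
    constructor
    · intro hh
      have a1 := hh 1 1
      have a2 := hh 2 2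
      have b1 : (1 : Fin 3) + 1 = 2 := rfl
      have b2 : (2 : Fin 3) + 2 = 1 := rfl
      rw [b1] at a1
      rw [b2] at a2
      exact ⟨lt_of_le_of_ne (by linarith) (Ne.symm h1), lt_of_le_of_ne (by linarith) (Ne.symm h2)⟩
    · rintro ⟨a1, a2⟩ i j
      fin_cases i <;> fin_cases j
      all_goals
        simp only [Fin.zero_eta, Fin.mk_one, Fin.reduceFinMk, Fin.reduceAdd, add_zero, zero_add]
        linarith
  rw [e, h]
  field_simp
  norm_num

theorem limit_three : Tendsto (fun n : ℕ => (semigroupCoreCount 3 n : ℝ) / (coreCount 3 n : ℝ)) atTop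
      (𝓝 (1 / 2)) := by
  have h := limit_fin 2
  have e := three_prob
  rw [show ((1 : ℝ) / 2) = ((2 + 1 : ℕ) : ℝ) * (Measure.pi (fun _ : Fin (2 + 1) => gaussianReal 0 1)).real
        {y | ∀ i j, y (i + j) + y 0 ≤ y i + y j} by
      rw [e]; norm_num]
  exact h

/-- reflection of the indices 1 and 3 -/
theorem four_swap (S : Set (Fin 4 → ℝ)) (hS : MeasurableSet S) :
    (Measure.pi (fun _ : Fin 4 => gaussianReal 0 1)).real
      {y : Fin 4 → ℝ | (fun i => y (Equiv.swap 1 3 i)) ∈ S} =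
    (Measure.pi (fun _ : Fin 4 => gaussianReal 0 1)).real S := by
  have mp := measurePreserving_piCongrLeft (fun _ : Fin 4 => gaussianReal 0 1)
      (Equiv.swap (1 : Fin 4) 3)
  have h := mp.measureReal_preimage hS.nullMeasurableSet
  rw [← h]
  congr 1
  ext y
  simp only [Set.mem_preimage, Set.mem_ofPred_eq]
  have key : (MeasurableEquiv.piCongrLeft (fun _ => ℝ) (Equiv.swap (1 : Fin 4) 3)) y =
      fun i => y (Equiv.swap 1 3 i) := by
    funext i
    conv_lhs => rw [← Equiv.apply_symm_apply (Equiv.swap (1 : Fin 4) 3) i]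
    exact Equiv.piCongrLeft_apply_apply (fun _ => ℝ) _ y _
  rw [key]

theorem four_third : (Measure.pi (fun _ : Fin 4 => gaussianReal 0 1)).real
    {y : Fin 4 → ℝ | 0 < ∑ i, (![0, 1, 0, -1] : Fin 4 → ℝ) i * y i ∧
      0 < ∑ i, (![-1, -1, 1, 1] : Fin 4 → ℝ) i * y i ∧
      0 < ∑ i, (![-1, 0, -1, 2] : Fin 4 → ℝ) i * y i} =
    1 / 16 - (Real.arcsin (1 / √3) - Real.arcsin (1 / √6)) / (4 * Real.pi) := by
  have hpi := Real.pi_pos
  have s2 : √(2 : ℝ) * √2 = 2 := Real.mul_self_sqrt (by norm_num)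
  have s4 : √(4 : ℝ) = 2 := by
    rw [show (4 : ℝ) = 2 ^ 2 by norm_num]
    exact Real.sqrt_sq (by norm_num)
  have s6 : √(6 : ℝ) = √2 * √3 := by
    rw [← Real.sqrt_mul (by norm_num)]
    norm_num
  have p2 : 0 < √(2 : ℝ) := by positivity
  have p3 : 0 < √(3 : ℝ) := by positivity
  have p6 : 0 < √(6 : ℝ) := by positivity
  have l3 : 1 / √3 ≤ 1 := by
    rw [div_le_one p3]
    rw [Real.one_le_sqrt]
    norm_num
  have l6 : 1 / √6 ≤ 1 := by
    rw [div_le_one p6]
    rw [Real.one_le_sqrt]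
    norm_num
  have g3 : (0 : ℝ) ≤ 1 / √3 := by positivity
  have g6 : (0 : ℝ) ≤ 1 / √6 := by positivity
  have h := G_three 4 (![0, 1, 0, -1] : Fin 4 → ℝ) (![-1, -1, 1, 1] : Fin 4 → ℝ)
    (![-1, 0, -1, 2] : Fin 4 → ℝ)
    (by intro h; have := congrFun h 1; simp at this)
    (by intro h; have := congrFun h 1; simp at this)
    (by intro h; have := congrFun h 0; simp at this)
    (Real.pi / 2 - Real.arcsin (1 / √6)) (Real.pi / 2 + Real.arcsin (1 / √3)) (3 * Real.pi / 4)
    (by linarith [Real.arcsin_le_pi_div_two (1 / √6)])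
    (by linarith [Real.arcsin_nonneg.2 g6])
    (by linarith [Real.arcsin_nonneg.2 g3])
    (by linarith [Real.arcsin_le_pi_div_two (1 / √3)])
    (by positivity) (by linarith)
    (by
      have h3 : Real.cos (3 * Real.pi / 4) = - (√2 / 2) := by
        rw [show 3 * Real.pi / 4 = Real.pi - Real.pi / 4 by ring, Real.cos_pi_sub,
          Real.cos_pi_div_four]
      rw [h3]
      simp only [Fin.sum_univ_four, Matrix.cons_val_zero, Matrix.cons_val_one, Matrix.cons_val]
      rw [show (0 : ℝ) ^ 2 + 1 ^ 2 + 0 ^ 2 + (-1) ^ 2 = 2 by norm_num,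
        show (-1 : ℝ) ^ 2 + (-1) ^ 2 + 1 ^ 2 + 1 ^ 2 = 4 by norm_num, s4]
      linear_combination (1 : ℝ) * s2)
    (by
      have h3 : Real.cos (Real.pi / 2 + Real.arcsin (1 / √3)) = - (1 / √3) := by
        rw [add_comm, Real.cos_add_pi_div_two, Real.sin_arcsin (by linarith) l3]
      rw [h3]
      simp only [Fin.sum_univ_four, Matrix.cons_val_zero, Matrix.cons_val_one, Matrix.cons_val]
      rw [show (0 : ℝ) ^ 2 + 1 ^ 2 + 0 ^ 2 + (-1) ^ 2 = 2 by norm_num,
        show (-1 : ℝ) ^ 2 + 0 ^ 2 + (-1) ^ 2 + 2 ^ 2 = 6 by norm_num, s6]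
      field_simp
      linear_combination (1 : ℝ) * s2)
    (by
      have h3 : Real.cos (Real.pi / 2 - Real.arcsin (1 / √6)) = 1 / √6 := by
        rw [Real.cos_pi_div_two_sub, Real.sin_arcsin (by linarith) l6]
      rw [h3]
      simp only [Fin.sum_univ_four, Matrix.cons_val_zero, Matrix.cons_val_one, Matrix.cons_val]
      rw [show (-1 : ℝ) ^ 2 + (-1) ^ 2 + 1 ^ 2 + 1 ^ 2 = 4 by norm_num,
        show (-1 : ℝ) ^ 2 + 0 ^ 2 + (-1) ^ 2 + 2 ^ 2 = 6 by norm_num, s4]
      field_simp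
      norm_num)
  rw [h]
  field_simp
  ring

theorem four_prob : (Measure.pi (fun _ : Fin 4 => gaussianReal 0 1)).real
    {y : Fin 4 → ℝ | ∀ i j, y (i + j) + y 0 ≤ y i + y j} =
    1 / 8 - (Real.arcsin (1 / √3) - Real.arcsin (1 / √6)) / (2 * Real.pi) := by
  set P := Measure.pi (fun _ : Fin 4 => gaussianReal 0 1) with hP
  set T : Set (Fin 4 → ℝ) := {y : Fin 4 → ℝ | 0 < ∑ i, (![0, 1, 0, -1] : Fin 4 → ℝ) i * y i ∧
      0 < ∑ i, (![-1, -1, 1, 1] : Fin 4 → ℝ) i * y i ∧
      0 < ∑ i, (![-1, 0, -1, 2] : Fin 4 → ℝ) i * y i} with hT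
  have hTm : MeasurableSet T :=
    (measurableSet_hsp _).inter ((measurableSet_hsp _).inter (measurableSet_hsp _))
  set T' : Set (Fin 4 → ℝ) := {y : Fin 4 → ℝ | (fun i => y (Equiv.swap 1 3 i)) ∈ T} with hT'
  have hTm' : MeasurableSet T' := by
    have hmm : Measurable (fun y : Fin 4 → ℝ => (fun i => y (Equiv.swap 1 3 i))) := by fun_prop
    exact hmm hTm
  have m1 : P.real T' = P.real T := four_swap T hTm
  have w0 : (Equiv.swap (1 : Fin 4) 3) 0 = 0 := by decide
  have w1 : (Equiv.swap (1 : Fin 4) 3) 1 = 3 := by decide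
  have w2 : (Equiv.swap (1 : Fin 4) 3) 2 = 2 := by decide
  have w3 : (Equiv.swap (1 : Fin 4) 3) 3 = 1 := by decide
  have hdis : Disjoint T T' := by
    rw [Set.disjoint_left]
    intro y hy hy'
    have a1 := hy.1
    have a2 := hy'.1
    simp only [Fin.sum_univ_four, Matrix.cons_val_zero, Matrix.cons_val_one, Matrix.cons_val,
      w0, w1, w2, w3] at a1 a2
    linarith
  have hn1 : (![0, 1, 0, -1] : Fin 4 → ℝ) ≠ 0 := by
    intro h; have := congrFun h 1; simp at this
  have hn2 : (![-1, -1, 1, 1] : Fin 4 → ℝ) ≠ 0 := by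
    intro h; have := congrFun h 1; simp at this
  have hn3 : (![-1, 0, -1, 2] : Fin 4 → ℝ) ≠ 0 := by
    intro h; have := congrFun h 0; simp at this
  have hn4 : (![-1, 1, 1, -1] : Fin 4 → ℝ) ≠ 0 := by
    intro h; have := congrFun h 1; simp at this
  have hn5 : (![-1, 2, -1, 0] : Fin 4 → ℝ) ≠ 0 := by
    intro h; have := congrFun h 0; simp at this
  have e : P.real {y : Fin 4 → ℝ | ∀ i j, y (i + j) + y 0 ≤ y i + y j} = P.real (T ∪ T') := by
    refine measureReal_congr ?_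
    filter_upwards [null_hyperplane _ hn1, null_hyperplane _ hn2, null_hyperplane _ hn3,
      null_hyperplane _ hn4, null_hyperplane _ hn5] with y h1 h2 h3 h4 h5
    apply propext
    change (∀ i j : Fin 4, y (i + j) + y 0 ≤ y i + y j) ↔
      ((0 < ∑ i, (![0, 1, 0, -1] : Fin 4 → ℝ) i * y i ∧
      0 < ∑ i, (![-1, -1, 1, 1] : Fin 4 → ℝ) i * y i ∧
      0 < ∑ i, (![-1, 0, -1, 2] : Fin 4 → ℝ) i * y i) ∨
      (0 < ∑ i, (![0, 1, 0, -1] : Fin 4 → ℝ) i * y (Equiv.swap 1 3 i) ∧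
      0 < ∑ i, (![-1, -1, 1, 1] : Fin 4 → ℝ) i * y (Equiv.swap 1 3 i) ∧
      0 < ∑ i, (![-1, 0, -1, 2] : Fin 4 → ℝ) i * y (Equiv.swap 1 3 i)))
    simp only [Fin.sum_univ_four, Matrix.cons_val_zero, Matrix.cons_val_one, Matrix.cons_val,
      w0, w1, w2, w3] at h1 h2 h3 h4 h5 ⊢
    constructor
    · intro hh
      have a11 := hh 1 1
      have a33 := hh 3 3
      have a12 := hh 1 2
      have a23 := hh 2 3
      have b1 : (1 : Fin 4) + 1 = 2 := rfl
      have b2 : (3 : Fin 4) + 3 = 2 := rfl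
      have b3 : (1 : Fin 4) + 2 = 3 := rfl
      have b4 : (2 : Fin 4) + 3 = 1 := rfl
      rw [b1] at a11
      rw [b2] at a33
      rw [b3] at a12
      rw [b4] at a23
      rcases lt_or_gt_of_ne h1 with hlt | hgt
      · right
        refine ⟨by linarith, lt_of_le_of_ne (by linarith) (fun h => h4 (by linarith)),
          lt_of_le_of_ne (by linarith) (fun h => h5 (by linarith))⟩
      · left
        exact ⟨hgt, lt_of_le_of_ne (by linarith) (Ne.symm h2), lt_of_le_of_ne (by linarith) (Ne.symm h3)⟩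
    · rintro (⟨a1, a2, a3⟩ | ⟨a1, a2, a3⟩) i j
      · fin_cases i <;> fin_cases j
        all_goals
          simp only [Fin.zero_eta, Fin.mk_one, Fin.reduceFinMk, Fin.reduceAdd, add_zero, zero_add]
          linarith
      · fin_cases i <;> fin_cases j
        all_goals
          simp only [Fin.zero_eta, Fin.mk_one, Fin.reduceFinMk, Fin.reduceAdd, add_zero, zero_add]
          linarith
  rw [e, measureReal_union hdis hTm', m1, hT, four_third]
  field_simp
  ring

theorem limit_four : Tendsto (fun n : ℕ => (semigroupCoreCount 4 n : ℝ) / (coreCount 4 n : ℝ)) atTop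
      (𝓝 (1 / 2 - 2 / Real.pi * (Real.arcsin (1 / √3) - Real.arcsin (1 / √6)))) := by
  have h := limit_fin 3
  have e := four_prob
  rw [show ((1 : ℝ) / 2 - 2 / Real.pi * (Real.arcsin (1 / √3) - Real.arcsin (1 / √6))) =
      ((3 + 1 : ℕ) : ℝ) * (Measure.pi (fun _ : Fin (3 + 1) => gaussianReal 0 1)).real
        {y | ∀ i j, y (i + j) + y 0 ≤ y i + y j} by
      rw [e]
      push_cast
      have := Real.pi_pos
      field_simp
      ring]
  exact h

end Pool.Agent.MP_16d773_co
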